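import Mathlib

set_option autoImplicit false
set_option linter.unusedSectionVars false

/-!
# The F-conjecture in characteristic `p`: additive curves and translation invariant divisors suffice

The marks are the elements of a finite set `ι` and `∞`. The boundary divisors of `M̄_{0,n}` are the
`δ_S`, `S ⊆ ι` with `2 ≤ |S| < |ι|` (`δ_S` separates `S` from the other marks).

A curve in `M̄_{0,n}` that meets the interior is given by different elements `x i` (`i ∈ ι`) of its
function field `K` and `x ∞ = ∞`. At a point `τ` and for an integer `r` the relation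
`ord_τ (x i - x j) ≥ r` has the classes `S`; the intersection number with `δ_S` is the number of
pairs `(τ, r)` for which `S` is a class.

Let `F` be a finite subfield of `K`. A curve is additive (over `F`) if its marks are `∞` and all the
elements of a finite `F`-vector space of functions: `x` is an injective `F`-linear map `y : F^m → K`.
Then for all `(τ, r)` the classes are the cosets of the subspace of the functions of order at least
`r` at `τ`. So the class of an additive curve is given by a finite family of subspaces of `F^m`, such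
that every nonzero vector lies in the same number of them.

Theorem. Every curve is the image of an additive curve under a forgetful map, and for every F-nef
divisor there is an F-nef divisor which is invariant under the group `v ↦ a v + w` of
permutations of the marks and has the same degree. So the F-conjecture (for all `n` and the curves
with function field `K`, in all strata) is equivalent to the inequality
`0 ≤ ∑ [F^m : V_q] c (V_q)` for all additive curves and all invariant F-nef divisors.

Proof. The marks `x i` are in the `F`-vector space `W` generated by the differences (up to a common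
summand); it is finite since `F` is. The pullback of an F-nef divisor under the forgetful map is
F-nef, and has the same degree. Translations by elements of `W`, and multiplication by elements of
`F`, do not change the additive curve. So one can take the mean value over this group.

It is enough to know this in one characteristic `p`: nefness specialises, so that a divisor on
`M̄_{0,n}` over `ℤ` that is nef in characteristic `p` is nef in characteristic zero.
-/

namespace Pool.Agent.Results.MP_23e236_ag.AdditiveCurves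

open Finset

/-! ### Curves -/

/-- The points of a smooth projective curve with function field `K` (over an algebraically closed
field), and the orders of the functions at them. -/
structure Places (K : Type) [Field K] where
  Point : Type
  ord : Point → K → ℤ
  ord_mul : ∀ τ f g, f ≠ 0 → g ≠ 0 → ord τ (f * g) = ord τ f + ord τ g
  ord_add : ∀ τ f g, f ≠ 0 → g ≠ 0 → f + g ≠ 0 → min (ord τ f) (ord τ g) ≤ ord τ (f + g)
  finite : ∀ f, f ≠ 0 → {τ | ord τ f ≠ 0}.Finite
  sum_eq : ∀ f, f ≠ 0 → ∑ᶠ τ, ord τ f = 0

section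

variable {K : Type} [Field K] (P : Places K) {ι : Type} [Fintype ι] [DecidableEq ι]

/-- The marks `i` and `j` have contact of order at least `r` at `τ`. -/
def Close (x : ι → K) (q : P.Point × ℤ) (i j : ι) : Prop := i = j ∨ q.2 ≤ P.ord q.1 (x i - x j)

/-- `S` is a class of marks at `(τ, r)`: a class of the relation `Close`. -/
def IsClass (x : ι → K) (S : Finset ι) (q : P.Point × ℤ) : Prop :=
  ∃ i ∈ S, ∀ j, j ∈ S ↔ Close P x q i j

/-- The intersection number of the curve with `δ_S`, for `2 ≤ |S| < |ι|`. -/
noncomputable def intersection (x : ι → K) (S : Finset ι) : ℕ := {q | IsClass P x S q}.ncard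

/-- The degree of `∑ c S • δ_S` on the curve. -/
noncomputable def degree (c : Finset ι → ℝ) (x : ι → K) : ℝ := ∑ S, c S * intersection P x S

/-! ### Divisors -/

/-- `c` stands for the divisor `∑ c S • δ_S` on the space `M̄_{0,n}` with the marks `ι` and `∞`. -/
def IsDivisor (c : Finset ι → ℝ) : Prop := (∀ S : Finset ι, S.card ≤ 1 → c S = 0) ∧ c univ = 0

/-- The divisor is F-nef. -/
def FNef (c : Finset ι → ℝ) : Prop :=
  ∀ A B C : Finset ι, A.Nonempty → B.Nonempty → C.Nonempty →
    Disjoint A B → Disjoint A C → Disjoint B C →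
    c A + c B + c C + c (A ∪ B ∪ C) ≤ c (A ∪ B) + c (A ∪ C) + c (B ∪ C)

end

/-- Let `f S` be the coefficient of `δ_S` for `2 ≤ |S| < s`, of `- ψ_i` for `S = {i}` and of `- ψ_∞`
for the set of all marks. This is the linearly equivalent divisor in which `ψ_i` and `ψ_∞` do not
occur: subtract the combinations, with coefficients `a_i` and `b`, of the relations
`∑_{i ∈ S} δ_S = 0` (the sum over the `S` that contain `i` and not `∞`; `δ_{i} = - ψ_i`, and
`δ_S = - ψ_∞` for the set of all marks) and `∑ |S| (s - |S|) δ_S = 0`. -/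
noncomputable def reduced {s : ℕ} (f : Finset (Fin s) → ℝ) : Finset (Fin s) → ℝ := fun S =>
  f S - ∑ i ∈ S, (f {i} - (∑ j, f {j} - f univ) / s)
    - (∑ j, f {j} - f univ) / (s * (s - 1)) * (S.card * (s - S.card))

/-- The divisor is nonnegative on all curves with the function field `K`: such a curve meets the
interior of one stratum, and its class is the sum of its projections to the factors of the stratum;
a factor is given by disjoint nonempty sets `B 0, …, B (s-1)` of marks (the last part of the
partition is the one with `∞`). -/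
def Nef {K : Type} [Field K] (P : Places K) {n : ℕ} (c : Finset (Fin n) → ℝ) : Prop :=
  ∀ (s : ℕ) (B : Fin s → Finset (Fin n)), 2 ≤ s → (∀ i, (B i).Nonempty) →
    (∀ i j, i ≠ j → Disjoint (B i) (B j)) → ∀ x : Fin s → K, Function.Injective x →
      0 ≤ degree P (reduced fun S => c (S.biUnion B)) x

/-! ### Classes -/

section

variable {K : Type} [Field K] {P : Places K} {ι : Type} [Fintype ι] [DecidableEq ι]

lemma ord_one (τ : P.Point) : P.ord τ 1 = 0 := by
  have h := P.ord_mul τ 1 1 one_ne_zero one_ne_zero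
  rw [mul_one] at h
  omega

lemma ord_neg_one (τ : P.Point) : P.ord τ (-1) = 0 := by
  have h := P.ord_mul τ (-1) (-1) (by simp) (by simp)
  rw [neg_mul_neg, mul_one, ord_one] at h
  omega

lemma ord_neg (τ : P.Point) (f : K) (hf : f ≠ 0) : P.ord τ (-f) = P.ord τ f := by
  have h := P.ord_mul τ (-1) f (by simp) hf
  rw [ord_neg_one, neg_one_mul] at h
  omega

lemma close_symm {x : ι → K} (hx : Function.Injective x) {q : P.Point × ℤ} {i j : ι}
    (h : Close P x q i j) : Close P x q j i := by
  rcases h with h | h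
  · exact Or.inl h.symm
  · by_cases hij : i = j
    · exact Or.inl hij.symm
    · right
      have : x j - x i = -(x i - x j) := by ring
      rw [this, ord_neg _ _ (sub_ne_zero.2 fun e => hij (hx e))]
      exact h

lemma close_trans {x : ι → K} (hx : Function.Injective x) {q : P.Point × ℤ} {i j k : ι}
    (h : Close P x q i j) (h' : Close P x q j k) : Close P x q i k := by
  rcases h with h | h
  · exact h ▸ h'
  rcases h' with h' | h'
  · exact h' ▸ Or.inr h
  by_cases hik : i = k
  · exact Or.inl hik
  by_cases hij : i = j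
  · exact hij ▸ Or.inr h'
  by_cases hjk : j = k
  · exact hjk ▸ Or.inr h
  right
  have e : x i - x k = (x i - x j) + (x j - x k) := by ring
  have h1 := P.ord_add q.1 (x i - x j) (x j - x k) (sub_ne_zero.2 fun e => hij (hx e))
    (sub_ne_zero.2 fun e => hjk (hx e)) (by rw [← e]; exact sub_ne_zero.2 fun e => hik (hx e))
  rw [e]
  exact le_trans (le_min h h') h1

open Classical in
/-- The class of `i`. -/
noncomputable def cl (P : Places K) (x : ι → K) (q : P.Point × ℤ) (i : ι) : Finset ι :=
  univ.filter fun j => Close P x q i j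

open Classical in
/-- All classes. -/
noncomputable def classes (P : Places K) (x : ι → K) (q : P.Point × ℤ) : Finset (Finset ι) :=
  univ.image fun i => cl P x q i

lemma mem_cl {x : ι → K} {q : P.Point × ℤ} {i j : ι} : j ∈ cl P x q i ↔ Close P x q i j := by
  classical
  simp [cl]

lemma self_mem_cl (x : ι → K) (q : P.Point × ℤ) (i : ι) : i ∈ cl P x q i :=
  mem_cl.2 (Or.inl rfl)

lemma cl_eq {x : ι → K} (hx : Function.Injective x) {q : P.Point × ℤ} {i j : ι}
    (h : Close P x q i j) : cl P x q i = cl P x q j := by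
  ext k
  rw [mem_cl, mem_cl]
  exact ⟨fun h' => close_trans hx (close_symm hx h) h', fun h' => close_trans hx h h'⟩

lemma mem_classes {x : ι → K} {S : Finset ι} {q : P.Point × ℤ} :
    S ∈ classes P x q ↔ IsClass P x S q := by
  classical
  unfold classes IsClass
  rw [mem_image]
  constructor
  · rintro ⟨i, -, rfl⟩
    exact ⟨i, self_mem_cl x q i, fun j => mem_cl⟩
  · rintro ⟨i, -, h⟩
    exact ⟨i, mem_univ _, by ext j; rw [h, mem_cl]⟩

lemma eq_cl {x : ι → K} (hx : Function.Injective x) {S : Finset ι} {q : P.Point × ℤ}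
    (hS : S ∈ classes P x q) {i : ι} (hi : i ∈ S) : S = cl P x q i := by
  obtain ⟨j, -, h⟩ := mem_classes.1 hS
  ext k
  rw [h, mem_cl]
  have h1 := (h i).1 hi
  exact ⟨fun h' => close_trans hx (close_symm hx h1) h', fun h' => close_trans hx h1 h'⟩

lemma class_nonempty {x : ι → K} {S : Finset ι} {q : P.Point × ℤ}
    (hS : S ∈ classes P x q) : S.Nonempty := by
  obtain ⟨j, hj, -⟩ := mem_classes.1 hS
  exact ⟨j, hj⟩

/-! ### The degree as a sum over points and orders -/

lemma finite_isClass {x : ι → K} (hx : Function.Injective x) {S : Finset ι} (h2 : 2 ≤ S.card)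
    (hu : S ≠ univ) : {q : P.Point × ℤ | IsClass P x S q}.Finite := by
  classical
  obtain ⟨i, hi, j, hj, hij⟩ := one_lt_card.1 (show 1 < S.card by omega)
  obtain ⟨k, hk⟩ : ∃ k, k ∉ S := by
    by_contra h
    push Not at h
    exact hu (eq_univ_iff_forall.2 h)
  have hik : i ≠ k := fun e => hk (e ▸ hi)
  have hf : x i - x j ≠ 0 := sub_ne_zero.2 fun e => hij (hx e)
  have hg : x i - x k ≠ 0 := sub_ne_zero.2 fun e => hik (hx e)
  have hfin := (P.finite _ hf).union (P.finite _ hg)
  refine Set.Finite.subset (hfin.biUnion (t := fun τ => (fun r => (τ, r)) ''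
    (Set.Ioc (P.ord τ (x i - x k)) (P.ord τ (x i - x j)))) fun τ _ =>
      (Set.finite_Ioc _ _).image _) ?_
  rintro ⟨τ, r⟩ hq
  have hc : S ∈ classes P x (τ, r) := mem_classes.2 hq
  have e := eq_cl hx hc hi
  have h1 : r ≤ P.ord τ (x i - x j) := by
    have : j ∈ cl P x (τ, r) i := e ▸ hj
    rcases mem_cl.1 this with h | h
    · exact absurd h hij
    · exact h
  have h2 : P.ord τ (x i - x k) < r := by
    by_contra h
    push Not at h
    apply hk
    rw [e, mem_cl]
    exact Or.inr h
  simp only [Set.mem_iUnion, Set.mem_image, Set.mem_Ioc, Prod.mk.injEq]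
  refine ⟨τ, ?_, r, ⟨h2, h1⟩, rfl, rfl⟩
  simp only [Set.mem_union, Set.mem_ofPred_eq]
  by_contra h
  push Not at h
  omega

/-- The sum of `c` over the classes at `q`. -/
noncomputable def level (P : Places K) (x : ι → K) (c : Finset ι → ℝ) (q : P.Point × ℤ) : ℝ :=
  ∑ S ∈ classes P x q, c S

lemma degree_eq {x : ι → K} (hx : Function.Injective x) {c : Finset ι → ℝ} (hc : IsDivisor c) :
    degree P c x = ∑ᶠ q, level P x c q ∧ (Function.support (level P x c)).Finite := by
  classical
  set G : Finset (Finset ι) := univ.filter fun S => 2 ≤ S.card ∧ S ≠ univ with hG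
  have hfin : ∀ S ∈ G, {q : P.Point × ℤ | IsClass P x S q}.Finite := fun S hS =>
    finite_isClass hx (mem_filter.1 hS).2.1 (mem_filter.1 hS).2.2
  have hbad : ∀ S, S ∉ G → c S = 0 := by
    intro S hS
    rw [hG, mem_filter] at hS
    by_cases h : 2 ≤ S.card
    · have : S = univ := by
        by_contra h'
        exact hS ⟨mem_univ _, h, h'⟩
      rw [this]
      exact hc.2
    · exact hc.1 S (by omega)
  have hQf : (⋃ S ∈ G, {q : P.Point × ℤ | IsClass P x S q}).Finite :=
    Set.Finite.biUnion (Finset.finite_toSet G) hfin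
  set Q := hQf.toFinset with hQ
  have hsupp : ∀ q, q ∉ Q → level P x c q = 0 := by
    intro q hq
    apply sum_eq_zero
    intro S hS
    apply hbad
    intro hSG
    apply hq
    rw [hQ, Set.Finite.mem_toFinset]
    simp only [Set.mem_iUnion, Set.mem_ofPred_eq]
    exact ⟨S, hSG, mem_classes.1 hS⟩
  have hsub : Function.support (level P x c) ⊆ (Q : Set (P.Point × ℤ)) := by
    intro q hq
    by_contra h
    exact hq (hsupp q (by simpa using h))
  refine ⟨?_, (Finset.finite_toSet Q).subset hsub⟩
  rw [finsum_eq_sum_of_support_subset _ hsub]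
  unfold level degree
  have e1 : ∀ q ∈ Q, ∑ S ∈ classes P x q, c S = ∑ S, if S ∈ classes P x q then c S else 0 := by
    intro q _
    rw [← sum_filter]
    congr 1
    ext S
    simp
  rw [sum_congr rfl e1, sum_comm]
  apply sum_congr rfl
  intro S _
  by_cases hS : S ∈ G
  · rw [← sum_filter, sum_const, nsmul_eq_mul, mul_comm]
    congr 2
    unfold intersection
    rw [← Set.ncard_coe_finset]
    congr 1
    ext q
    simp only [coe_filter, Set.mem_ofPred_eq, mem_classes]
    constructor
    · intro h
      refine ⟨?_, h⟩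
      rw [hQ, Set.Finite.mem_toFinset]
      simp only [Set.mem_iUnion, Set.mem_ofPred_eq]
      exact ⟨S, hS, h⟩
    · exact fun h => h.2
  · rw [hbad S hS]
    simp

end

/-! ### Forgetting marks -/

section

variable {K : Type} [Field K] {P : Places K} {ι κ : Type} [Fintype ι] [DecidableEq ι] [Fintype κ]
  [DecidableEq κ]

/-- The pullback under the map forgetting the marks that are not in the image of `e`. -/
def pull (e : ι → κ) (c : Finset ι → ℝ) : Finset κ → ℝ :=
  fun T => c (univ.filter fun i => e i ∈ T)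

lemma isDivisor_pull {e : ι → κ} (he : Function.Injective e) {c : Finset ι → ℝ}
    (hc : IsDivisor c) : IsDivisor (pull e c) := by
  constructor
  · intro T hT
    apply hc.1
    refine le_trans ?_ hT
    rw [← card_map ⟨e, he⟩]
    apply card_le_card
    intro k hk
    simp only [mem_map, mem_filter, mem_univ, true_and, Function.Embedding.coeFn_mk] at hk
    obtain ⟨i, hi, rfl⟩ := hk
    exact hi
  · unfold pull
    simp only [mem_univ, filter_true]
    exact hc.2

lemma fnef_pull {e : ι → κ} {c : Finset ι → ℝ} (hc : IsDivisor c) (hF : FNef c) :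
    FNef (pull e c) := by
  intro A B C _ _ _ hAB hAC hBC
  unfold pull
  set A' := univ.filter fun i => e i ∈ A with hA
  set B' := univ.filter fun i => e i ∈ B with hB
  set C' := univ.filter fun i => e i ∈ C with hC
  have e1 : (univ.filter fun i => e i ∈ A ∪ B) = A' ∪ B' := by
    ext i
    simp [hA, hB]
  have e2 : (univ.filter fun i => e i ∈ A ∪ C) = A' ∪ C' := by
    ext i
    simp [hA, hC]
  have e3 : (univ.filter fun i => e i ∈ B ∪ C) = B' ∪ C' := by
    ext i
    simp [hB, hC]
  have e4 : (univ.filter fun i => e i ∈ A ∪ B ∪ C) = A' ∪ B' ∪ C' := by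
    ext i
    simp [hA, hB, hC]
  rw [e1, e2, e3, e4]
  have h0 : c ∅ = 0 := hc.1 ∅ (by simp)
  have dis : ∀ X Y : Finset κ, Disjoint X Y →
      Disjoint (univ.filter fun i => e i ∈ X) (univ.filter fun i => e i ∈ Y) := by
    intro X Y h
    rw [disjoint_left] at h ⊢
    intro i hi hi'
    exact h (mem_filter.1 hi).2 (mem_filter.1 hi').2
  rcases A'.eq_empty_or_nonempty with h | h1
  · rw [h]
    simp only [empty_union, h0]
    linarith
  rcases B'.eq_empty_or_nonempty with h | h2
  · rw [h]
    simp only [empty_union, union_empty, h0]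
    linarith
  rcases C'.eq_empty_or_nonempty with h | h3
  · rw [h]
    simp only [union_empty, h0]
    linarith
  exact hF A' B' C' h1 h2 h3 (dis A B hAB) (dis A C hAC) (dis B C hBC)

lemma close_comp {e : ι → κ} (he : Function.Injective e) {y : κ → K} {q : P.Point × ℤ} {i j : ι} :
    Close P y q (e i) (e j) ↔ Close P (y ∘ e) q i j := by
  unfold Close
  rw [he.eq_iff]
  rfl

lemma level_pull {e : ι → κ} (he : Function.Injective e) {y : κ → K} (hy : Function.Injective y)
    {c : Finset ι → ℝ} (hc : IsDivisor c) (q : P.Point × ℤ) :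
    level P y (pull e c) q = level P (y ∘ e) c q := by
  classical
  unfold level pull
  set f : Finset κ → Finset ι := fun T => univ.filter fun i => e i ∈ T with hf
  have h0 : c ∅ = 0 := hc.1 ∅ (by simp)
  have hkey : ∀ T ∈ classes P y q, ∀ i ∈ f T, f T = cl P (y ∘ e) q i := by
    intro T hT i hi
    have h1 : e i ∈ T := (mem_filter.1 hi).2
    have h2 := eq_cl hy hT h1
    ext j
    rw [mem_cl, ← close_comp he, ← mem_cl, ← h2, hf]
    simp
  have e1 : ∑ T ∈ classes P y q, c (f T) =
      ∑ T ∈ (classes P y q).filter (fun T => (f T).Nonempty), c (f T) := by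
    symm
    apply sum_filter_of_ne
    intro T _ h
    by_contra h'
    rw [not_nonempty_iff_eq_empty] at h'
    rw [h', h0] at h
    exact h rfl
  have hinj : Set.InjOn f ((classes P y q).filter (fun T => (f T).Nonempty) :
      Finset (Finset κ)) := by
    intro T hT T' hT' h
    rw [mem_coe, mem_filter] at hT hT'
    obtain ⟨i, hi⟩ := hT.2
    have h1 : e i ∈ T := (mem_filter.1 hi).2
    have h2 : e i ∈ T' := by
      rw [h] at hi
      exact (mem_filter.1 hi).2
    rw [eq_cl hy hT.1 h1, eq_cl hy hT'.1 h2]
  change ∑ T ∈ classes P y q, c (f T) = _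
  rw [e1, ← sum_image (f := c) hinj]
  apply sum_congr ?_ fun _ _ => rfl
  ext S
  rw [mem_image]
  constructor
  · rintro ⟨T, hT, rfl⟩
    rw [mem_filter] at hT
    obtain ⟨i, hi⟩ := hT.2
    rw [hkey T hT.1 i hi]
    exact mem_image_of_mem _ (mem_univ i)
  · intro hS
    obtain ⟨i, -, rfl⟩ := mem_image.1 hS
    have h1 : cl P y q (e i) ∈ classes P y q := mem_image_of_mem _ (mem_univ (e i))
    have h2 : i ∈ f (cl P y q (e i)) := by
      rw [hf, mem_filter]
      exact ⟨mem_univ _, self_mem_cl y q (e i)⟩
    exact ⟨cl P y q (e i), mem_filter.2 ⟨h1, ⟨i, h2⟩⟩, hkey _ h1 i h2⟩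

lemma degree_pull {e : ι → κ} (he : Function.Injective e) {y : κ → K} (hy : Function.Injective y)
    {c : Finset ι → ℝ} (hc : IsDivisor c) :
    degree P (pull e c) y = degree P c (y ∘ e) := by
  rw [(degree_eq hy (isDivisor_pull he hc)).1, (degree_eq (hy.comp he) hc).1]
  exact finsum_congr fun q => level_pull he hy hc q

/-! ### Permutations of the marks -/

/-- The divisor moved by a permutation of the marks. -/
def act (T : κ ≃ κ) (c : Finset κ → ℝ) : Finset κ → ℝ := fun S => c (S.map T.toEmbedding)

lemma isDivisor_act (T : κ ≃ κ) {c : Finset κ → ℝ} (hc : IsDivisor c) : IsDivisor (act T c) := by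
  constructor
  · intro S hS
    exact hc.1 _ (by rwa [card_map])
  · unfold act
    rw [map_univ_equiv]
    exact hc.2

lemma fnef_act (T : κ ≃ κ) {c : Finset κ → ℝ} (hF : FNef c) : FNef (act T c) := by
  intro A B C hA hB hC hAB hAC hBC
  unfold act
  rw [map_union, map_union, map_union, map_union]
  exact hF _ _ _ (hA.map) (hB.map) (hC.map) (by rwa [disjoint_map]) (by rwa [disjoint_map])
    (by rwa [disjoint_map])

lemma level_act {T : κ ≃ κ} {y : κ → K}
    (hT : ∀ τ i j, i ≠ j → P.ord τ (y (T i) - y (T j)) = P.ord τ (y i - y j))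
    (c : Finset κ → ℝ) (q : P.Point × ℤ) :
    level P y (act T c) q = level P y c q := by
  classical
  have hclose : ∀ i j, Close P y q (T i) (T j) ↔ Close P y q i j := by
    intro i j
    unfold Close
    rw [T.injective.eq_iff]
    by_cases h : i = j
    · simp [h]
    · rw [hT _ _ _ h]
  have hmap : ∀ i, (cl P y q i).map T.toEmbedding = cl P y q (T i) := by
    intro i
    ext j
    rw [mem_map_equiv, mem_cl, mem_cl, ← hclose, T.apply_symm_apply]
  unfold level act
  have hinj : Set.InjOn (fun S : Finset κ => S.map T.toEmbedding)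
      ((classes P y q : Finset (Finset κ)) : Set (Finset κ)) :=
    fun _ _ _ _ h => map_injective _ h
  change ∑ S ∈ classes P y q, c ((fun S : Finset κ => S.map T.toEmbedding) S) = _
  rw [← sum_image (f := c) hinj]
  apply sum_congr ?_ fun _ _ => rfl
  ext S
  rw [mem_image]
  constructor
  · rintro ⟨S', hS', rfl⟩
    obtain ⟨i, -, rfl⟩ := mem_image.1 hS'
    rw [hmap]
    exact mem_image_of_mem _ (mem_univ _)
  · intro hS
    obtain ⟨i, -, rfl⟩ := mem_image.1 hS
    refine ⟨cl P y q (T.symm i), mem_image_of_mem _ (mem_univ _), ?_⟩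
    rw [hmap, T.apply_symm_apply]

lemma degree_act {T : κ ≃ κ} {y : κ → K} (hy : Function.Injective y)
    (hT : ∀ τ i j, i ≠ j → P.ord τ (y (T i) - y (T j)) = P.ord τ (y i - y j))
    {c : Finset κ → ℝ} (hc : IsDivisor c) :
    degree P (act T c) y = degree P c y := by
  rw [(degree_eq hy (isDivisor_act T hc)).1, (degree_eq hy hc).1]
  exact finsum_congr fun q => level_act hT c q

/-! ### Mean values -/

/-- The mean value over a finite set of permutations. -/
noncomputable def mean {G : Type} [Fintype G] (T : G → (κ ≃ κ)) (c : Finset κ → ℝ) :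
    Finset κ → ℝ :=
  fun S => (∑ g, act (T g) c S) / Fintype.card G

lemma isDivisor_mean {G : Type} [Fintype G] (T : G → (κ ≃ κ)) {c : Finset κ → ℝ}
    (hc : IsDivisor c) : IsDivisor (mean T c) := by
  constructor
  · intro S hS
    unfold mean
    rw [sum_eq_zero fun g _ => (isDivisor_act (T g) hc).1 S hS, zero_div]
  · unfold mean
    rw [sum_eq_zero fun g _ => (isDivisor_act (T g) hc).2, zero_div]

lemma fnef_mean {G : Type} [Fintype G] (T : G → (κ ≃ κ)) {c : Finset κ → ℝ}
    (hF : FNef c) : FNef (mean T c) := by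
  intro A B C hA hB hC hAB hAC hBC
  unfold mean
  rw [← add_div, ← add_div, ← add_div, ← add_div, ← add_div]
  apply div_le_div_of_nonneg_right _ (Nat.cast_nonneg _)
  rw [← sum_add_distrib, ← sum_add_distrib, ← sum_add_distrib, ← sum_add_distrib,
    ← sum_add_distrib]
  exact sum_le_sum fun g _ => fnef_act (T g) hF A B C hA hB hC hAB hAC hBC

lemma degree_mean {G : Type} [Fintype G] [Nonempty G] {T : G → (κ ≃ κ)} {y : κ → K}
    (hy : Function.Injective y)
    (hT : ∀ g τ i j, i ≠ j → P.ord τ (y (T g i) - y (T g j)) = P.ord τ (y i - y j))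
    {c : Finset κ → ℝ} (hc : IsDivisor c) :
    degree P (mean T c) y = degree P c y := by
  have e : degree P (mean T c) y = (∑ g, degree P (act (T g) c) y) / Fintype.card G := by
    unfold degree mean
    rw [sum_comm, sum_div]
    apply sum_congr rfl
    intro S _
    rw [← sum_mul]
    ring
  rw [e, sum_congr rfl fun g _ => degree_act hy (hT g) hc, sum_const, card_univ, nsmul_eq_mul]
  have : (Fintype.card G : ℝ) ≠ 0 := Nat.cast_ne_zero.2 Fintype.card_ne_zero
  field_simp

end

/-! ### Additive curves -/

section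

variable {F K : Type} [Field F] [Fintype F] [DecidableEq F] [Field K] [Algebra F K] (P : Places K)
  {m : ℕ}

/-- The divisor is invariant under the maps `v ↦ a v + w` of the set of marks `F^m`. -/
def Invariant (c : Finset (Fin m → F) → ℝ) : Prop :=
  ∀ (a : F) (w : Fin m → F) (S : Finset (Fin m → F)), a ≠ 0 → c (S.image fun v => a • v + w) = c S

/-- The elements of `F^m` whose function `y v` has order at least `r` at `τ`. -/
def sub (y : (Fin m → F) →ₗ[F] K) (q : P.Point × ℤ) : Finset (Fin m → F) :=
  univ.filter fun v => v = 0 ∨ q.2 ≤ P.ord q.1 (y v)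

variable {P}

lemma ord_pow (τ : P.Point) (f : K) (hf : f ≠ 0) (n : ℕ) : P.ord τ (f ^ n) = n * P.ord τ f := by
  induction n with
  | zero => simp [ord_one]
  | succ n ih =>
    rw [pow_succ, P.ord_mul τ _ _ (pow_ne_zero _ hf) hf, ih]
    push_cast
    ring

lemma ord_algebraMap (τ : P.Point) {a : F} (ha : a ≠ 0) : P.ord τ (algebraMap F K a) = 0 := by
  have h1 : a ^ (Fintype.card F - 1) = 1 := FiniteField.pow_card_sub_one_eq_one a ha
  have h2 : algebraMap F K a ^ (Fintype.card F - 1) = 1 := by
    rw [← map_pow, h1, map_one]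
  have h3 := ord_pow τ (algebraMap F K a) (by simpa using ha) (Fintype.card F - 1)
  rw [h2, ord_one] at h3
  have h4 : 1 < Fintype.card F := Fintype.one_lt_card
  rcases mul_eq_zero.1 h3.symm with h | h
  · have : Fintype.card F - 1 = 0 := by exact_mod_cast h
    omega
  · exact h

lemma ord_smul (τ : P.Point) {a : F} (ha : a ≠ 0) {f : K} (hf : f ≠ 0) :
    P.ord τ (a • f) = P.ord τ f := by
  rw [Algebra.smul_def, P.ord_mul τ _ _ (by simpa using ha) hf, ord_algebraMap τ ha, zero_add]

/-- The map `v ↦ a v + w`. -/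
def aff (g : Fˣ × (Fin m → F)) : (Fin m → F) ≃ (Fin m → F) where
  toFun v := (g.1 : F) • v + g.2
  invFun v := ((g.1⁻¹ : Fˣ) : F) • (v - g.2)
  left_inv v := by simp [smul_smul]
  right_inv v := by simp [smul_smul]

lemma aff_apply (g : Fˣ × (Fin m → F)) (v : Fin m → F) : aff g v = (g.1 : F) • v + g.2 := rfl

lemma ord_aff (y : (Fin m → F) →ₗ[F] K) (hy : Function.Injective y) (g : Fˣ × (Fin m → F))
    (τ : P.Point) (i j : Fin m → F) (hij : i ≠ j) :
    P.ord τ (y (aff g i) - y (aff g j)) = P.ord τ (y i - y j) := by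
  have e : y (aff g i) - y (aff g j) = (g.1 : F) • (y i - y j) := by
    rw [aff_apply, aff_apply, map_add, map_add, map_smul, map_smul, smul_sub]
    ring
  rw [e, ord_smul τ g.1.ne_zero (sub_ne_zero.2 fun h => hij (hy h))]

lemma invariant_mean (c : Finset (Fin m → F) → ℝ) :
    Invariant (mean (aff : Fˣ × (Fin m → F) → _) c) := by
  intro a w S ha
  unfold mean
  congr 1
  set h : Fˣ × (Fin m → F) := (Units.mk0 a ha, w) with hh
  have e0 : (S.image fun v => a • v + w) = S.map (aff h).toEmbedding := by
    rw [map_eq_image]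
    rfl
  rw [e0]
  set φ : Fˣ × (Fin m → F) → Fˣ × (Fin m → F) :=
    fun g => (g.1 * h.1, (g.1 : F) • h.2 + g.2) with hφ
  have hinj : Function.Injective φ := by
    rintro ⟨a1, w1⟩ ⟨a2, w2⟩ h12
    simp only [hφ, Prod.mk.injEq, mul_left_inj] at h12
    obtain ⟨rfl, h2⟩ := h12
    rw [add_left_cancel h2]
  apply Fintype.sum_bijective φ (Finite.injective_iff_bijective.1 hinj)
  intro g
  unfold act
  congr 1
  rw [map_map]
  congr 1
  ext v : 1
  simp only [Function.Embedding.trans_apply, Equiv.coe_toEmbedding, aff_apply, hφ,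
    Units.val_mul, smul_add, smul_smul]
  rw [add_assoc]

lemma mem_sub {y : (Fin m → F) →ₗ[F] K} {q : P.Point × ℤ} {v : Fin m → F} :
    v ∈ sub P y q ↔ v = 0 ∨ q.2 ≤ P.ord q.1 (y v) := by
  simp [sub]

lemma cl_eq_image {y : (Fin m → F) →ₗ[F] K} (hy : Function.Injective y) (q : P.Point × ℤ)
    (i : Fin m → F) : cl P y q i = (sub P y q).image fun v => (1 : F) • v + i := by
  ext j
  rw [mem_cl, mem_image]
  have key : Close P y q i j ↔ j - i ∈ sub P y q := by
    rw [mem_sub]
    unfold Close
    rw [sub_eq_zero]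
    by_cases h : i = j
    · simp [h]
    · have h1 : y i - y j = -(y (j - i)) := by
        rw [map_sub]
        ring
      rw [h1, ord_neg _ _ (by
        intro h0
        have : j - i = 0 := hy (by rw [h0, map_zero])
        exact h (sub_eq_zero.1 this).symm)]
      simp [h, Ne.symm h]
  rw [key]
  constructor
  · intro h
    exact ⟨j - i, h, by simp⟩
  · rintro ⟨v, hv, rfl⟩
    simpa using hv

lemma level_invariant {y : (Fin m → F) →ₗ[F] K} (hy : Function.Injective y)
    {c : Finset (Fin m → F) → ℝ} (hc : Invariant c) (q : P.Point × ℤ) :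
    level P y c q = (Fintype.card (Fin m → F) / (sub P y q).card : ℝ) * c (sub P y q) := by
  classical
  have h1 : ∀ S ∈ classes P y q, c S = c (sub P y q) ∧ S.card = (sub P y q).card := by
    intro S hS
    obtain ⟨i, -, rfl⟩ := mem_image.1 hS
    rw [cl_eq_image hy]
    refine ⟨hc 1 i _ one_ne_zero, ?_⟩
    apply card_image_of_injective
    intro u v huv
    simpa using huv
  have h2 : Fintype.card (Fin m → F) = (classes P y q).card * (sub P y q).card := by
    rw [← card_univ, card_eq_sum_card_image (fun i => cl P y q i) univ]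
    change ∑ b ∈ classes P y q, _ = _
    rw [← smul_eq_mul, ← sum_const]
    apply sum_congr rfl
    intro S hS
    rw [← (h1 S hS).2]
    congr 1
    ext i
    rw [mem_filter]
    constructor
    · rintro ⟨-, rfl⟩
      exact self_mem_cl _ q i
    · exact fun hi => ⟨mem_univ _, (eq_cl hy hS hi).symm⟩
  have h3 : ((sub P y q).card : ℝ) ≠ 0 := by
    have : 0 ∈ sub P y q := mem_sub.2 (Or.inl rfl)
    exact Nat.cast_ne_zero.2 (card_ne_zero_of_mem this)
  unfold level
  rw [sum_congr rfl fun S hS => (h1 S hS).1, sum_const, nsmul_eq_mul, h2]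
  push_cast
  field_simp

lemma degree_invariant {y : (Fin m → F) →ₗ[F] K} (hy : Function.Injective y)
    {c : Finset (Fin m → F) → ℝ} (hd : IsDivisor c) (hc : Invariant c) :
    degree P c y = ∑ᶠ q : P.Point × ℤ,
      (Fintype.card (Fin m → F) / (sub P y q).card : ℝ) * c (sub P y q) := by
  rw [(degree_eq hy hd).1]
  exact finsum_congr fun q => level_invariant hy hc q

lemma exists_submodule {y : (Fin m → F) →ₗ[F] K} (hy : Function.Injective y) (q : P.Point × ℤ) :
    ∃ U : Submodule F (Fin m → F), ∀ v, v ∈ U ↔ v ∈ sub P y q := by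
  have hne : ∀ v : Fin m → F, v ≠ 0 → y v ≠ 0 := fun v hv h => hv (hy (by rw [h, map_zero]))
  refine ⟨⟨⟨⟨{v | v ∈ sub P y q}, ?_⟩, ?_⟩, ?_⟩, fun v => Iff.rfl⟩
  · intro u v hu hv
    simp only [Set.mem_ofPred_eq, mem_sub] at hu hv ⊢
    by_cases h0 : u + v = 0
    · exact Or.inl h0
    rcases hu with rfl | hu
    · rw [zero_add] at h0 ⊢
      exact hv
    rcases hv with rfl | hv
    · rw [add_zero] at h0 ⊢
      exact Or.inr hu
    by_cases hu0 : u = 0
    · rw [hu0, zero_add]
      exact Or.inr hv
    by_cases hv0 : v = 0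
    · rw [hv0, add_zero]
      exact Or.inr hu
    right
    rw [map_add]
    refine le_trans (le_min hu hv) (P.ord_add q.1 _ _ (hne u hu0) (hne v hv0) ?_)
    rw [← map_add]
    exact hne _ h0
  · simp [mem_sub]
  · intro a v hv
    simp only [Set.mem_ofPred_eq, mem_sub] at hv ⊢
    by_cases ha : a = 0
    · left
      rw [ha, zero_smul]
    rcases hv with rfl | hv
    · left
      exact smul_zero a
    by_cases hv0 : v = 0
    · left
      rw [hv0, smul_zero]
    right
    rw [map_smul, ord_smul _ ha (hne v hv0)]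
    exact hv

lemma exists_count {y : (Fin m → F) →ₗ[F] K} (hy : Function.Injective y) :
    ∃ d : ℕ, ∀ v : Fin m → F, v ≠ 0 →
      {q : P.Point × ℤ | v ∈ sub P y q ∧ sub P y q ≠ univ}.ncard = d := by
  classical
  have hne : ∀ v : Fin m → F, v ≠ 0 → y v ≠ 0 := fun v hv h => hv (hy (by rw [h, map_zero]))
  by_cases hex : ∃ v0 : Fin m → F, v0 ≠ 0
  swap
  · push Not at hex
    exact ⟨0, fun v hv => absurd (hex v) hv⟩
  obtain ⟨v0, hv0⟩ := hex
  have hN : (univ.filter fun u : Fin m → F => u ≠ 0).Nonempty := ⟨v0, by simp [hv0]⟩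
  set mn : P.Point → ℤ := fun τ =>
    (univ.filter fun u : Fin m → F => u ≠ 0).inf' hN fun u => P.ord τ (y u) with hmn
  have hle : ∀ τ (u : Fin m → F), u ≠ 0 → mn τ ≤ P.ord τ (y u) := fun τ u hu =>
    inf'_le _ (by simp [hu])
  have hat : ∀ τ, ∃ u : Fin m → F, u ≠ 0 ∧ P.ord τ (y u) = mn τ := by
    intro τ
    obtain ⟨u, hu, h⟩ := exists_mem_eq_inf' hN fun u => P.ord τ (y u)
    exact ⟨u, (mem_filter.1 hu).2, h.symm⟩
  have hTf : (⋃ u ∈ (univ.filter fun u : Fin m → F => u ≠ 0), {τ | P.ord τ (y u) ≠ 0}).Finite :=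
    Set.Finite.biUnion (Finset.finite_toSet _) fun u hu =>
      P.finite _ (hne u (by simpa using hu))
  set T := hTf.toFinset with hT
  have hTout : ∀ τ, τ ∉ T → ∀ u : Fin m → F, u ≠ 0 → P.ord τ (y u) = 0 := by
    intro τ hτ u hu
    by_contra h
    apply hτ
    rw [hT, Set.Finite.mem_toFinset]
    simp only [Set.mem_iUnion, Set.mem_ofPred_eq]
    exact ⟨u, by simp [hu], h⟩
  have hmout : ∀ τ, τ ∉ T → mn τ = 0 := by
    intro τ hτ
    obtain ⟨u, hu, h⟩ := hat τ
    rw [← h, hTout τ hτ u hu]
  have hmain : ∀ v : Fin m → F, v ≠ 0 →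
      (({q : P.Point × ℤ | v ∈ sub P y q ∧ sub P y q ≠ univ}.ncard : ℕ) : ℤ) =
        - ∑ τ ∈ T, mn τ := by
    intro v hv
    have e : {q : P.Point × ℤ | v ∈ sub P y q ∧ sub P y q ≠ univ} =
        ((T.biUnion fun τ => (Ioc (mn τ) (P.ord τ (y v))).image (Prod.mk τ) :
          Finset (P.Point × ℤ)) : Set (P.Point × ℤ)) := by
      ext ⟨τ, r⟩
      simp only [Set.mem_ofPred_eq, coe_biUnion, Set.mem_iUnion, coe_image, Set.mem_image, coe_Ioc,
        Set.mem_Ioc, Prod.mk.injEq, mem_coe]
      constructor
      · rintro ⟨h1, h2⟩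
        rw [mem_sub] at h1
        have h1' : r ≤ P.ord τ (y v) := h1.resolve_left hv
        have h2' : mn τ < r := by
          by_contra h
          push Not at h
          apply h2
          rw [eq_univ_iff_forall]
          intro u
          rw [mem_sub]
          by_cases hu : u = 0
          · exact Or.inl hu
          · exact Or.inr (h.trans (hle τ u hu))
        refine ⟨τ, ?_, r, ⟨h2', h1'⟩, rfl, rfl⟩
        by_contra hτ
        rw [hmout τ hτ] at h2'
        rw [hTout τ hτ v hv] at h1'
        omega
      · rintro ⟨τ', -, r', ⟨h1, h2⟩, rfl, rfl⟩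
        refine ⟨mem_sub.2 (Or.inr h2), ?_⟩
        intro h
        obtain ⟨u, hu, hu'⟩ := hat τ'
        have h3 : u ∈ sub P y (τ', r') := h ▸ mem_univ u
        rcases mem_sub.1 h3 with h4 | h4
        · exact hu h4
        · simp only at h4
          omega
    rw [e, Set.ncard_coe_finset, card_biUnion]
    · push_cast
      have e1 : ∀ τ ∈ T, (((Ioc (mn τ) (P.ord τ (y v))).image (Prod.mk τ)).card : ℤ) =
          P.ord τ (y v) - mn τ := by
        intro τ _
        rw [card_image_of_injective _ (Prod.mk_right_injective τ), Int.card_Ioc,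
          Int.toNat_of_nonneg (sub_nonneg.2 (hle τ v hv))]
      rw [sum_congr rfl e1, sum_sub_distrib]
      have e2 : ∑ τ ∈ T, P.ord τ (y v) = 0 := by
        rw [← P.sum_eq (y v) (hne v hv)]
        symm
        apply finsum_eq_sum_of_support_subset
        intro τ hτ
        by_contra h
        exact hτ (hTout τ (by simpa using h) v hv)
      rw [e2]
      ring
    · intro τ _ τ' _ hττ
      rw [Function.onFun, disjoint_left]
      intro q h1 h2
      obtain ⟨r, -, rfl⟩ := mem_image.1 h1
      obtain ⟨r', -, h3⟩ := mem_image.1 h2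
      exact hττ (Prod.mk.inj h3).1.symm
  refine ⟨(- ∑ τ ∈ T, mn τ).toNat, fun v hv => ?_⟩
  have := hmain v hv
  omega

end

/-! ### The theorem -/

section

variable {F K : Type} [Field F] [Fintype F] [DecidableEq F] [Field K] [Algebra F K] {P : Places K}

lemma degree_congr {ι : Type} [Fintype ι] [DecidableEq ι] {x x' : ι → K}
    (h : ∀ i j, x i - x j = x' i - x' j) (c : Finset ι → ℝ) :
    degree P c x = degree P c x' := by
  unfold degree
  apply sum_congr rfl
  intro S _
  congr 2
  unfold intersection
  congr 1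
  ext q
  unfold IsClass Close
  simp only [Set.mem_ofPred_eq, h]

variable (F) in
theorem lift {n : ℕ} (hn : 0 < n) {c : Finset (Fin n) → ℝ} (hc : IsDivisor c) (hF : FNef c)
    {x : Fin n → K} (hx : Function.Injective x) :
    ∃ (m : ℕ) (y : (Fin m → F) →ₗ[F] K) (e : Fin n → Fin m → F) (c' : Finset (Fin m → F) → ℝ),
      m < n ∧ Function.Injective y ∧ (∀ i j, y (e i) - y (e j) = x i - x j) ∧ IsDivisor c' ∧
      FNef c' ∧ Invariant c' ∧ degree P c' y = degree P c x := by
  classical
  set z : Fin n := ⟨0, hn⟩ with hz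
  set I : Finset K := (univ.erase z).image fun i => x i - x z with hI
  set W : Submodule F K := Submodule.span F (I : Set K) with hW
  have hfin : Module.finrank F W < n := by
    have h1 : Module.finrank F W ≤ I.card := finrank_span_finset_le_card I
    have h2 : I.card ≤ (univ.erase z).card := card_image_le
    rw [card_erase_of_mem (mem_univ z), card_univ, Fintype.card_fin] at h2
    omega
  set b : (Fin (Module.finrank F W) → F) ≃ₗ[F] W :=
    (Module.finBasis F W).equivFun.symm with hb
  set y : (Fin (Module.finrank F W) → F) →ₗ[F] K := W.subtype ∘ₗ b.toLinearMap with hy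
  have hyinj : Function.Injective y := W.subtype_injective.comp b.injective
  have hmem : ∀ i, x i - x z ∈ W := by
    intro i
    by_cases h : i = z
    · rw [h, sub_self]
      exact W.zero_mem
    · exact Submodule.subset_span (mem_coe.2 (mem_image_of_mem _ (mem_erase.2 ⟨h, mem_univ i⟩)))
  set e : Fin n → Fin (Module.finrank F W) → F := fun i => b.symm ⟨x i - x z, hmem i⟩ with he
  have hye : ∀ i, y (e i) = x i - x z := by
    intro i
    simp [hy, he]
  have heinj : Function.Injective e := by
    intro i j h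
    have h1 := hye i
    rw [h, hye j] at h1
    exact hx (sub_left_injective h1).symm
  refine ⟨_, y, e, mean (aff : Fˣ × (Fin (Module.finrank F W) → F) → _) (pull e c), hfin, hyinj,
    fun i j => by rw [hye, hye]; ring, isDivisor_mean _ (isDivisor_pull heinj hc),
    fnef_mean _ (fnef_pull hc hF), invariant_mean _, ?_⟩
  rw [degree_mean hyinj (fun g τ i j hij => ord_aff y hyinj g τ i j hij)
    (isDivisor_pull heinj hc), degree_pull heinj hyinj hc]
  exact degree_congr (fun i j => by simp only [Function.comp, hye]; ring) c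

lemma descend {m : ℕ} {c' : Finset (Fin m → F) → ℝ} (hc : IsDivisor c') (hF : FNef c')
    {y : (Fin m → F) →ₗ[F] K} (hy : Function.Injective y) :
    ∃ (n : ℕ) (c : Finset (Fin n) → ℝ) (x : Fin n → K), IsDivisor c ∧ FNef c ∧
      Function.Injective x ∧ degree P c x = degree P c' y := by
  classical
  set e : Fin (Fintype.card (Fin m → F)) ≃ (Fin m → F) := (Fintype.equivFin _).symm with he
  set c : Finset (Fin (Fintype.card (Fin m → F))) → ℝ := fun S => c' (S.map e.toEmbedding) with hc0
  have hcd : IsDivisor c := by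
    constructor
    · intro S hS
      exact hc.1 _ (by rwa [card_map])
    · simp only [hc0]
      rw [map_univ_equiv]
      exact hc.2
  have hcF : FNef c := by
    intro A B C hA hB hC hAB hAC hBC
    simp only [hc0]
    rw [map_union, map_union, map_union, map_union]
    exact hF _ _ _ (hA.map) (hB.map) (hC.map) (by rwa [disjoint_map]) (by rwa [disjoint_map])
      (by rwa [disjoint_map])
  refine ⟨_, c, y ∘ e, hcd, hcF, hy.comp e.injective, ?_⟩
  rw [← degree_pull e.injective hy hcd]
  congr 1
  ext T
  simp only [pull, hc0]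
  congr 1
  ext v
  rw [mem_map_equiv, mem_filter]
  simp

lemma reduced_eq {s : ℕ} (hs : 2 ≤ s) (f : Finset (Fin s) → ℝ) (S : Finset (Fin s)) :
    reduced f S = f S - ∑ i ∈ S, f {i} +
      (∑ j, f {j} - f univ) * (S.card * (S.card - 1)) / (s * (s - 1)) := by
  have h1 : (s : ℝ) ≠ 0 := by
    have : (0 : ℝ) < s := by exact_mod_cast (by omega : 0 < s)
    exact this.ne'
  have h2 : (s : ℝ) - 1 ≠ 0 := by
    have : (1 : ℝ) < s := by exact_mod_cast (by omega : 1 < s)
    exact (sub_pos.2 this).ne'
  unfold reduced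
  rw [sum_sub_distrib, sum_const, nsmul_eq_mul]
  field_simp
  ring

lemma isDivisor_reduced {s : ℕ} (hs : 2 ≤ s) {f : Finset (Fin s) → ℝ} (hf : f ∅ = 0) :
    IsDivisor (reduced f) := by
  have h1 : (s : ℝ) ≠ 0 := by
    have : (0 : ℝ) < s := by exact_mod_cast (by omega : 0 < s)
    exact this.ne'
  have h2 : (s : ℝ) - 1 ≠ 0 := by
    have : (1 : ℝ) < s := by exact_mod_cast (by omega : 1 < s)
    exact (sub_pos.2 this).ne'
  constructor
  · intro S hS
    rw [reduced_eq hs]
    rcases Nat.eq_zero_or_pos S.card with h | h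
    · rw [card_eq_zero.1 h, hf]
      simp
    · obtain ⟨i, rfl⟩ := card_eq_one.1 (le_antisymm hS h)
      simp
  · rw [reduced_eq hs, card_univ, Fintype.card_fin]
    field_simp
    ring

lemma fnef_reduced {s : ℕ} (hs : 2 ≤ s) {f : Finset (Fin s) → ℝ} (hF : FNef f) :
    FNef (reduced f) := by
  intro A B C hA hB hC hAB hAC hBC
  have h := hF A B C hA hB hC hAB hAC hBC
  have hABC : Disjoint (A ∪ B) C := disjoint_union_left.2 ⟨hAC, hBC⟩
  simp only [reduced_eq hs]
  rw [sum_union hABC, sum_union hAB, sum_union hAC, sum_union hBC, card_union_of_disjoint hABC,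
    card_union_of_disjoint hAB, card_union_of_disjoint hAC, card_union_of_disjoint hBC]
  set β := (∑ j, f {j} - f univ)
  have e : β * (((A.card : ℕ) : ℝ) * (A.card - 1)) / (s * (s - 1)) +
      β * (((B.card : ℕ) : ℝ) * (B.card - 1)) / (s * (s - 1)) +
      β * (((C.card : ℕ) : ℝ) * (C.card - 1)) / (s * (s - 1)) +
      β * ((((A.card + B.card + C.card : ℕ)) : ℝ) * ((A.card + B.card + C.card : ℕ) - 1)) /
        (s * (s - 1)) =
      β * ((((A.card + B.card : ℕ)) : ℝ) * ((A.card + B.card : ℕ) - 1)) / (s * (s - 1)) +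
      β * ((((A.card + C.card : ℕ)) : ℝ) * ((A.card + C.card : ℕ) - 1)) / (s * (s - 1)) +
      β * ((((B.card + C.card : ℕ)) : ℝ) * ((B.card + C.card : ℕ) - 1)) / (s * (s - 1)) := by
    push_cast
    ring
  linarith

lemma fnef_biUnion {n s : ℕ} {c : Finset (Fin n) → ℝ} (hF : FNef c)
    {B : Fin s → Finset (Fin n)} (hB : ∀ i, (B i).Nonempty)
    (hd : ∀ i j, i ≠ j → Disjoint (B i) (B j)) : FNef fun S => c (S.biUnion B) := by
  have hne : ∀ S : Finset (Fin s), S.Nonempty → (S.biUnion B).Nonempty := by
    rintro S ⟨i, hi⟩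
    obtain ⟨j, hj⟩ := hB i
    exact ⟨j, mem_biUnion.2 ⟨i, hi, hj⟩⟩
  have hdis : ∀ S T : Finset (Fin s), Disjoint S T → Disjoint (S.biUnion B) (T.biUnion B) := by
    intro S T h
    rw [disjoint_left]
    intro a ha hb
    obtain ⟨i, hi, hai⟩ := mem_biUnion.1 ha
    obtain ⟨j, hj, haj⟩ := mem_biUnion.1 hb
    have hij : i ≠ j := fun e => disjoint_left.1 h hi (e ▸ hj)
    exact disjoint_left.1 (hd i j hij) hai haj
  intro X Y Z hX hY hZ hXY hXZ hYZ
  simp only [union_biUnion]
  exact hF _ _ _ (hne X hX) (hne Y hY) (hne Z hZ) (hdis _ _ hXY) (hdis _ _ hXZ) (hdis _ _ hYZ)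

lemma nef_interior {n : ℕ} {c : Finset (Fin n) → ℝ} (hc : IsDivisor c) (h : Nef P c)
    {x : Fin n → K} (hx : Function.Injective x) : 0 ≤ degree P c x := by
  by_cases hn : 2 ≤ n
  · have h1 := h n (fun i => {i}) hn (fun i => singleton_nonempty i)
      (fun i j hij => by rwa [disjoint_singleton]) x hx
    have e : (reduced fun S : Finset (Fin n) => c (S.biUnion fun i => {i})) = c := by
      ext S
      rw [reduced_eq hn]
      simp only [biUnion_singleton_eq_self]
      rw [hc.2, sum_eq_zero fun i _ => hc.1 {i} (by simp), sum_eq_zero fun i _ => hc.1 {i} (by simp)]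
      ring
    rwa [e] at h1
  · unfold degree
    apply sum_nonneg
    intro S _
    have h1 : S.card ≤ 1 := le_trans (card_le_univ S) (by rw [Fintype.card_fin]; omega)
    rw [hc.1 S h1, zero_mul]

/-- **Main theorem.** -/
theorem result (F K : Type) [Field F] [Fintype F] [DecidableEq F] [Field K] [Algebra F K]
    (P : Places K) :
    (∀ (n : ℕ) (c : Finset (Fin n) → ℝ) (x : Fin n → K), 0 < n → IsDivisor c → FNef c →
      Function.Injective x →
      ∃ (m : ℕ) (y : (Fin m → F) →ₗ[F] K) (e : Fin n → Fin m → F) (c' : Finset (Fin m → F) → ℝ),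
        m < n ∧ Function.Injective y ∧ (∀ i j, y (e i) - y (e j) = x i - x j) ∧ IsDivisor c' ∧
        FNef c' ∧ Invariant c' ∧ degree P c' y = degree P c x) ∧
    (∀ (m : ℕ) (y : (Fin m → F) →ₗ[F] K), Function.Injective y →
      (∀ q, ∃ U : Submodule F (Fin m → F), ∀ v, v ∈ U ↔ v ∈ sub P y q) ∧
      (∃ d : ℕ, ∀ v : Fin m → F, v ≠ 0 →
        {q : P.Point × ℤ | v ∈ sub P y q ∧ sub P y q ≠ univ}.ncard = d) ∧
      ∀ c : Finset (Fin m → F) → ℝ, IsDivisor c → Invariant c → degree P c y =
        ∑ᶠ q : P.Point × ℤ,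
          (Fintype.card (Fin m → F) / (sub P y q).card : ℝ) * c (sub P y q)) ∧
    ((∀ (n : ℕ) (c : Finset (Fin n) → ℝ), IsDivisor c → FNef c → Nef P c) ↔
      ∀ (m : ℕ) (c : Finset (Fin m → F) → ℝ) (y : (Fin m → F) →ₗ[F] K), IsDivisor c → FNef c →
        Invariant c → Function.Injective y →
        0 ≤ ∑ᶠ q : P.Point × ℤ,
          (Fintype.card (Fin m → F) / (sub P y q).card : ℝ) * c (sub P y q)) := by
  refine ⟨fun n c x hn hc hF hx => lift F hn hc hF hx, fun m y hy => ⟨exists_submodule hy,
    exists_count hy, fun c hd hc => degree_invariant hy hd hc⟩, ?_, ?_⟩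
  · intro h m c y hd hF hc hy
    rw [← degree_invariant hy hd hc]
    obtain ⟨n, c', x, h1, h2, h3, h4⟩ := descend (P := P) hd hF hy
    rw [← h4]
    exact nef_interior h1 (h n c' h1 h2) h3
  · intro h n c hc hF s B hs hB hd x hx
    have hc' : IsDivisor (reduced fun S : Finset (Fin s) => c (S.biUnion B)) :=
      isDivisor_reduced hs (by simpa using hc.1 ∅ (by simp))
    have hF' := fnef_reduced hs (fnef_biUnion hF hB hd)
    obtain ⟨m, y, e, c', -, hy, -, hd', hF'', hi, hdeg⟩ :=
      lift F (P := P) (by omega : 0 < s) hc' hF' hx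
    rw [← hdeg, degree_invariant hy hd' hi]
    exact h m c' y hd' hF'' hi hy

end

end Pool.Agent.Results.MP_23e236_ag.AdditiveCurves
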