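import Pool.Agent.L5helper90.FF.Basis

set_option autoImplicit false

/-!
# The F-conjecture for the divisors on `M̄_{0,n}` with nonnegative conformal block coordinates of
order at least six

The marks are `0, …, p-1` (the type `Fin p`) and `∞`, so `n = p + 1`.  The boundary divisors of
`M̄_{0,n}` are the `δ_S`, `S` a set of marks different from `∞` with `2 ≤ |S| < p` (`δ_S`
separates `S` from the other marks).  The F-curve of type `(A, B, C)`, for disjoint nonempty sets
`A, B, C` of marks different from `∞`, is the one of the partition `A, B, C`, (the rest, with `∞`).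

For every set of marks of even order at least four there is a divisor of conformal blocks for `sl₂`
at level one; these nef divisors form a basis of the Picard group with real coefficients (Fakhruddin).
We write `block T`, `T ⊆ Fin p`, `|T| ≥ 3`, for the divisor of the set `T` or `T ∪ {∞}` (the one of
even order).  It has degree one on an F-curve if all the four parts of the partition contain an odd
number of the marks of the set, and degree zero on the other F-curves.  The coordinate of
`D = ∑ c S • δ_S` at `block T` is the alternating sum `coord c T = 8 / 2 ^ p * ∑ (-1)^|T ∩ S| c S`.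
The sets of order four give the pullbacks of a point under the forgetful maps (cross-ratios)
`M̄_{0,n} → M̄_{0,4}`.

Theorem.  Let the coordinates of `D` at the sets of order at least six be nonnegative; nothing is
assumed about the coordinates at the sets of order four.  If `D` is nonnegative on the F-curves then
`D` is nef, and linearly equivalent to an effective sum of boundary divisors.  If `D` is positive on
the F-curves then `D` is ample.  In particular this holds for all the divisors in the linear span of
the pullbacks from `M̄_{0,4}`.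

More generally some negative coordinates are allowed: if the degrees of `D` on the F-curves are at
least `ε` and `3 * negPart c ≤ ε`, where `negPart c` is one eighth of the sum of `|T|` times the
negative part of the coordinate over the `T` with `|T| ≥ 5`, then the conclusions hold, with an
explicit bound.

Curves.  An irreducible curve in `M̄_{0,n}` meets the interior of a unique stratum, and its class is
the sum of its projections to the factors `M̄_{0,q+1}` of the stratum.  Such a factor belongs to
disjoint nonempty sets `B 0, …, B (q-1)` of marks different from `∞` (the marks behind the nodes and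
marks of the component of the stable curve; the last one leads to `∞`).  On the factor the
projection of the curve has the intersection numbers `m S ≥ 0` with the boundary divisors
`δ_S`, `2 ≤ |S| < q`, the degree `d` on `ψ_∞`, and it meets the interior.  The divisor `δ_T` of
`M̄_{0,n}` restricts to `δ_S` if `T` is the union of the `B i`, `i ∈ S`, to `-ψ_i` if `T = B i`, and
to `-ψ_∞` if `T` is the union of all `B i`.

Proof.  Take the mean value of the representations of the `block T` by boundary divisors.  For sets
of order four, the coefficient of `δ_S` is one third of the sum of the coordinates at the sets with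
two marks in `S`.  This is `4 / 3` of the mean value of the degrees of `D` on the F-curves obtained
by dividing `S` and its complement at random in two parts.  The sets of higher order contribute more
to the coefficient than to the mean value.  The condition is inherited by the restrictions of `D` to
the factors of the strata, so this can be applied on all of them.
-/

namespace Pool.Agent.Results.MP_23e236_ag.ConformalBlockCoordinates

open Finset

variable {p q : ℕ}

/-- `c` is a family of coefficients: it stands for the divisor `∑ c S • δ_S`, the sum over the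
`S` with `2 ≤ |S| < p`; it vanishes on the sets that give no boundary divisor. -/
def IsDivisor (c : Finset (Fin p) → ℝ) : Prop :=
  (∀ S : Finset (Fin p), S.card ≤ 1 → c S = 0) ∧ c univ = 0

/-- The degree of `∑ c S • δ_S` on the F-curve of type `(A, B, C)`. -/
def fdegree (c : Finset (Fin p) → ℝ) (A B C : Finset (Fin p)) : ℝ :=
  c (A ∪ B) + c (A ∪ C) + c (B ∪ C) - c A - c B - c C - c (A ∪ B ∪ C)

/-- Linear equivalence: the difference is a combination, with coefficients `a x y` whose sum is
zero (take `S = univ`), of the sums `∑ δ_S` over the `S` containing `x` and `y` (these sums are all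
linearly equivalent to `ψ_∞`, and their differences generate the relations, by Keel's theorem). -/
def LinEquiv (c u : Finset (Fin p) → ℝ) : Prop :=
  ∃ a : Fin p → Fin p → ℝ, ∀ S : Finset (Fin p),
    c S - u S = ∑ y ∈ S, ∑ x ∈ S.filter (fun x : Fin p => x < y), a x y

/-- The `B i` are disjoint nonempty sets of marks different from `∞`. -/
def IsStratum (B : Fin q → Finset (Fin p)) : Prop :=
  (∀ i, (B i).Nonempty) ∧ ∀ i j, i ≠ j → Disjoint (B i) (B j)

/-- `m S` are the intersection numbers with `δ_S` of a curve in `M̄_{0,q+1}` that is not contained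
in the boundary, and `d` is its degree on `ψ_∞`: all `m S ≥ 0`, and for all marks `i ≠ j` different
from `∞` we have `ψ_∞ = ∑ δ_S`, the sum over the `S` containing `i` and `j`. -/
def IsCurve (m : Finset (Fin q) → ℕ) (d : ℕ) : Prop :=
  (∀ S : Finset (Fin q), S.card ≤ 1 → m S = 0) ∧ m univ = 0 ∧
    ∀ i j : Fin q, i ≠ j →
      ∑ S ∈ univ.filter (fun S : Finset (Fin q) => i ∈ S ∧ j ∈ S), m S = d

/-- The degree of `∑ c S • δ_S` on the curve with the numbers `m`, `d` in the factor `M̄_{0,q+1}` of
a stratum given by the `B i`; the degree of `ψ_i` on the curve is `∑ m S - d`, the sum over the `S`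
containing `i`. -/
def degree (c : Finset (Fin p) → ℝ) (B : Fin q → Finset (Fin p)) (m : Finset (Fin q) → ℕ)
    (d : ℕ) : ℝ :=
  ∑ S ∈ univ.filter (fun S : Finset (Fin q) => 2 ≤ S.card ∧ S.card < q), c (S.biUnion B) * m S -
    ∑ i, c (B i) * (∑ S ∈ univ.filter (fun S : Finset (Fin q) => i ∈ S), (m S : ℝ) - d) -
    c (univ.biUnion B) * d

/-- The degree of the log canonical divisor `K + Δ = ∑ ψ_i - Δ` on the curve. -/
def logDegree (m : Finset (Fin q) → ℕ) (d : ℕ) : ℝ :=
  ∑ S : Finset (Fin q), (m S : ℝ) * ((S.card : ℝ) - 1) - d * ((q : ℝ) - 1)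

/-- The degrees on all the F-curves are at least `ε`. -/
def FBound (c : Finset (Fin p) → ℝ) (ε : ℝ) : Prop :=
  ∀ A B C : Finset (Fin p), A.Nonempty → B.Nonempty → C.Nonempty → Disjoint A B →
    Disjoint A C → Disjoint B C → ε ≤ fdegree c A B C

/-- Nonnegative degree on all curves. -/
def Nef (c : Finset (Fin p) → ℝ) : Prop :=
  ∀ (q : ℕ) (B : Fin q → Finset (Fin p)) (m : Finset (Fin q) → ℕ) (d : ℕ),
    IsStratum B → IsCurve m d → 0 ≤ degree c B m d

/-- Linearly equivalent to an effective sum of boundary divisors. -/
def BoundaryEffective (c : Finset (Fin p) → ℝ) : Prop :=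
  ∃ u : Finset (Fin p) → ℝ, IsDivisor u ∧ LinEquiv c u ∧ ∀ S, 0 ≤ u S

/-- The coordinates. -/
noncomputable def coord (c : Finset (Fin p) → ℝ) (T : Finset (Fin p)) : ℝ :=
  8 / 2 ^ p * ∑ S : Finset (Fin p), (-1) ^ (T ∩ S).card * c S

/-- The order of the one of the sets `T` and `T ∪ {∞}` which has even order. -/
def evenCard (T : Finset (Fin p)) : ℕ := if Even T.card then T.card else T.card + 1

/-- The conformal block divisor of the set `T` or `T ∪ {∞}` of even order `N`: the coefficient of
`δ_S` is `k (N - k) / (4 (N - 1))` if the number `k` of elements of `T ∩ S` is even, and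
`(k - 1) (N - k - 1) / (4 (N - 1))` if it is odd. -/
noncomputable def block (T S : Finset (Fin p)) : ℝ :=
  if Even (T ∩ S).card then
    ((T ∩ S).card : ℝ) * (evenCard T - (T ∩ S).card) / (4 * (evenCard T - 1))
  else (((T ∩ S).card : ℝ) - 1) * (evenCard T - (T ∩ S).card - 1) / (4 * (evenCard T - 1))

/-- One eighth of the sum of `|T|` times the negative part of the coordinate. -/
noncomputable def negPart (c : Finset (Fin p) → ℝ) : ℝ :=
  (∑ T ∈ univ.filter (fun T : Finset (Fin p) => 5 ≤ T.card),
    (T.card : ℝ) * max (- coord c T) 0) / 8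

/-- The pullback of the point `ij|kl` of `M̄_{0,4}` under the forgetful map given by the marks
`i, j, k, l`. -/
def cross (i j k l : Fin p) (S : Finset (Fin p)) : ℝ :=
  (if i ∈ S ∧ j ∈ S ∧ k ∉ S ∧ l ∉ S then (1 : ℝ) else 0) +
    (if k ∈ S ∧ l ∈ S ∧ i ∉ S ∧ j ∉ S then (1 : ℝ) else 0)

/-- The pullback of the point `ij|k∞` of `M̄_{0,4}` under the forgetful map given by the marks
`i, j, k, ∞`. -/
def crossInfty (i j k : Fin p) (S : Finset (Fin p)) : ℝ :=
  if i ∈ S ∧ j ∈ S ∧ k ∉ S then (1 : ℝ) else 0

section proofs

open L5helper90.FF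

theorem coord_hat (c : Finset (Fin p) → ℝ) (T : Finset (Fin p)) :
    coord c T = 8 / 2 ^ p * hat c T := rfl

theorem neg_eq (c : Finset (Fin p) → ℝ) : negPart c = neg c := by
  unfold negPart neg
  rw [sum_div, sum_div]
  refine sum_congr rfl fun T _ => ?_
  rw [coord_hat]
  have h1 : (0 : ℝ) < 8 / 2 ^ p := by positivity
  have h2 : max (-(8 / 2 ^ p * hat c T)) 0 = 8 / 2 ^ p * max (- hat c T) 0 := by
    rw [← mul_neg, mul_max_of_nonneg _ _ h1.le, mul_zero]
  rw [h2]
  field_simp

theorem block_g (T S : Finset (Fin p)) : 8 * block T S = g T.card (T ∩ S).card := by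
  have hk : (T ∩ S).card ≤ T.card := card_le_card inter_subset_left
  rcases Nat.eq_zero_or_pos (T ∩ S).card with h0 | h0
  · unfold block
    rw [h0, if_pos (by decide)]
    simp [g]
  rcases Nat.lt_or_ge 1 T.card with h | h
  · have ht : (1 : ℝ) < T.card := by exact_mod_cast h
    unfold block evenCard g om
    by_cases he : Even T.card
    · rw [if_pos he, if_pos he]
      have : (T.card : ℝ) - 1 ≠ 0 := by linarith
      split_ifs with h2
      · rw [h2.neg_one_pow]
        field_simp
        ring
      · rw [(Nat.not_even_iff_odd.1 h2).neg_one_pow]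
        field_simp
        ring
    · rw [if_neg he, if_neg he]
      have : (T.card : ℝ) ≠ 0 := by linarith
      push_cast
      have h5 : (T.card : ℝ) + 1 - 1 = T.card := by ring
      rw [h5]
      split_ifs with h2
      · rw [h2.neg_one_pow]
        field_simp
        ring
      · rw [(Nat.not_even_iff_odd.1 h2).neg_one_pow]
        field_simp
        ring
  · have h3 : (T ∩ S).card = 1 := by omega
    unfold block
    rw [h3, if_neg (by decide), g_one le_rfl]
    simp

theorem hat_block (T : Finset (Fin p)) {T' : Finset (Fin p)} (hT : 3 ≤ T'.card) :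
    hat (block T) T' = if T' = T then 2 ^ p / 8 else 0 := by
  have h1 : block T = fun S => (1 / 8) * g T.card (T ∩ S).card := by
    funext S
    rw [← block_g]
    ring
  rw [h1, hat_smul, hat_g T hT]
  split_ifs <;> ring

theorem coord_block (T : Finset (Fin p)) {T' : Finset (Fin p)} (hT : 3 ≤ T'.card) :
    coord (block T) T' = if T' = T then 1 else 0 := by
  rw [coord_hat, hat_block T hT]
  have h1 : (2 : ℝ) ^ p ≠ 0 := by positivity
  split_ifs
  · field_simp
  · ring

theorem block_divisor (T : Finset (Fin p)) : IsDivisor (block T) := by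
  constructor
  · intro S hS
    have := block_g T S
    rw [g_one ((card_le_card inter_subset_right).trans hS)] at this
    linarith
  · have := block_g T univ
    rw [inter_univ, g_diag] at this
    linarith

theorem block_nonneg (T S : Finset (Fin p)) : 0 ≤ block T S := by
  have h1 := block_g T S
  have hk : (T ∩ S).card ≤ T.card := card_le_card inter_subset_left
  have h2 : 0 ≤ g T.card (T ∩ S).card := by
    rcases Nat.lt_or_ge T.card 5 with h | h
    · rw [g_small (by omega) hk]
      split_ifs <;> norm_num
    · refine le_trans ?_ (g_low h hk)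
      split_ifs <;> norm_num
  linarith

theorem block_fdegree (T : Finset (Fin p)) {A B C : Finset (Fin p)} (h1 : Disjoint A B)
    (h2 : Disjoint A C) (h3 : Disjoint B C) : fdegree (block T) A B C =
      if Odd (T ∩ A).card ∧ Odd (T ∩ B).card ∧ Odd (T ∩ C).card then 1 else 0 := by
  have hg : ∀ S, block T S = (sg T S - 1 + 2 * (T ∩ S).card - om T.card *
      ((T ∩ S).card * ((T ∩ S).card - 1) / 2)) / 8 := by
    intro S
    have := block_g T S
    unfold g at this
    unfold sg
    linarith
  have hc : ∀ X Y : Finset (Fin p), Disjoint X Y →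
      ((T ∩ (X ∪ Y)).card : ℝ) = (T ∩ X).card + (T ∩ Y).card := by
    intro X Y h
    rw [inter_union_distrib_left, card_union_of_disjoint]
    · push_cast; ring
    · exact h.mono inter_subset_right inter_subset_right
  have h4 : Disjoint (A ∪ B) C := disjoint_union_left.2 ⟨h2, h3⟩
  have e : fdegree (block T) A B C = (1 - sg T A) * (1 - sg T B) * (1 - sg T C) / 8 := by
    unfold fdegree
    simp only [hg, sg_union T h4, sg_union T h1, sg_union T h2, sg_union T h3, hc _ _ h4,
      hc _ _ h1, hc _ _ h2, hc _ _ h3]
    ring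
  rw [e]
  have hs : ∀ X, sg T X = if Odd (T ∩ X).card then -1 else 1 := by
    intro X
    unfold sg
    split_ifs with h
    · exact h.neg_one_pow
    · exact (Nat.not_odd_iff_even.1 h).neg_one_pow
  rw [hs, hs, hs]
  by_cases k1 : Odd (T ∩ A).card <;> by_cases k2 : Odd (T ∩ B).card <;>
    by_cases k3 : Odd (T ∩ C).card <;> simp [k1, k2, k3] <;> norm_num

theorem rep_top {c : Finset (Fin p) → ℝ} (hc : IsDivisor c) :
    IsDivisor (rep c (fun i : Fin p => ({i} : Finset (Fin p)))) ∧
      LinEquiv c (rep c (fun i : Fin p => ({i} : Finset (Fin p)))) := by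
  refine ⟨⟨fun S hS => rep_small _ _ hS, rep_univ _ _⟩, ?_⟩
  refine ⟨fun x y => wt c (fun i : Fin p => ({i} : Finset (Fin p))) x y +
    wt c (fun i : Fin p => ({i} : Finset (Fin p))) y x, fun S => ?_⟩
  rw [← pairs_sum, ← rep_eq hdid (hc.1 ∅ (by simp)) S]
  have h1 : ∑ i ∈ S, c {i} = 0 := sum_eq_zero fun i _ => hc.1 {i} (by simp)
  have h2 : S.biUnion (fun i : Fin p => ({i} : Finset (Fin p))) = S := biUnion_singleton_eq_self
  rw [h1, h2]
  ring

theorem rep_block {c : Finset (Fin p) → ℝ} (S : Finset (Fin p)) :
    rep c (fun i : Fin p => ({i} : Finset (Fin p))) S =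
      ∑ T ∈ univ.filter (fun T : Finset (Fin p) => 3 ≤ T.card), coord c T * block T S := by
  unfold rep
  rw [sum_div, sum_filter]
  refine sum_congr rfl fun T _ => ?_
  rw [odd_id, ← block_g]
  split_ifs with h
  · rw [coord_hat]
    ring
  · have h1 := block_g T S
    have hk : (T ∩ S).card ≤ T.card := card_le_card inter_subset_left
    rw [g_small (by omega) hk, if_neg] at h1
    · rw [h1]; simp
    · rintro ⟨⟨r, hr⟩, h2, h3⟩
      omega

theorem expansion {c : Finset (Fin p) → ℝ} (hc : IsDivisor c) :
    LinEquiv c (fun S => ∑ T ∈ univ.filter (fun T : Finset (Fin p) => 3 ≤ T.card),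
      coord c T * block T S) := by
  obtain ⟨a, ha⟩ := (rep_top hc).2
  refine ⟨a, fun S => ?_⟩
  rw [← ha S, rep_block]

theorem classes {c u : Finset (Fin p) → ℝ} (hc : IsDivisor c) (hu : IsDivisor u) :
    LinEquiv c u ↔ ∀ T : Finset (Fin p), 3 ≤ T.card → coord c T = coord u T := by
  constructor
  · intro h T hT
    rw [coord_hat, coord_hat, hat_equiv h hT]
  · intro h
    obtain ⟨a, ha⟩ := expansion hc
    obtain ⟨b, hb⟩ := expansion hu
    refine ⟨fun x y => a x y - b x y, fun S => ?_⟩
    have e : ∑ T ∈ univ.filter (fun T : Finset (Fin p) => 3 ≤ T.card), coord c T * block T S =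
        ∑ T ∈ univ.filter (fun T : Finset (Fin p) => 3 ≤ T.card), coord u T * block T S :=
      sum_congr rfl fun T hT => by rw [h T (mem_filter.1 hT).2]
    simp only [sum_sub_distrib]
    rw [← ha S, ← hb S]
    dsimp only
    rw [e]
    ring

theorem size {B : Fin q → Finset (Fin p)} (h : IsStratum B) : q ≤ p := by
  have e1 : ∑ i : Fin q, (B i).card ≤ p := by
    rw [← card_biUnion fun i _ j _ hij => h.2 i j hij]
    have := card_le_univ (univ.biUnion B)
    rwa [Fintype.card_fin] at this
  have e2 : ∑ _i : Fin q, 1 ≤ ∑ i : Fin q, (B i).card :=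
    sum_le_sum fun i _ => card_pos.2 (h.1 i)
  rw [sum_const, card_univ, Fintype.card_fin, smul_eq_mul, mul_one] at e2
  omega

theorem low {c : Finset (Fin p) → ℝ} (hc : IsDivisor c) {ε : ℝ} (hε : 0 ≤ ε) (hF : FBound c ε)
    {B : Fin q → Finset (Fin p)} {m : Finset (Fin q) → ℕ} {d : ℕ} (hB : IsStratum B)
    (hm : IsCurve m d) :
    (ε / 3 - negPart c) * ∑ S : Finset (Fin q), (m S : ℝ) ≤ degree c B m d := by
  have h1 : degree c B m d = ∑ S : Finset (Fin q), (m S : ℝ) * rep c B S :=
    deg_rep hB.2 (hc.1 ∅ (by simp)) hm
  rw [h1, mul_sum]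
  refine sum_le_sum fun S _ => ?_
  by_cases h : m S = 0
  · rw [h]; simp
  · have h2 := R647.FC.card_sub hm h
    have h3 := rep_low hB.1 hB.2 (hc.1 ∅ (by simp)) hε hF h2.1 h2.2
    rw [← neg_eq] at h3
    rw [mul_comm]
    exact mul_le_mul_of_nonneg_left h3 (Nat.cast_nonneg _)

theorem neg_zero' {c : Finset (Fin p) → ℝ} (h : ∀ T : Finset (Fin p), 5 ≤ T.card → 0 ≤ coord c T) :
    negPart c = 0 := by
  unfold negPart
  rw [sum_eq_zero, zero_div]
  intro T hT
  rw [max_eq_right (by linarith [h T (mem_filter.1 hT).2]), mul_zero]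

theorem main {c : Finset (Fin p) → ℝ} (hc : IsDivisor c) {ε : ℝ} (hε : 0 ≤ ε) (hF : FBound c ε)
    (hn : negPart c ≤ ε / 3) :
    (∃ u : Finset (Fin p) → ℝ, IsDivisor u ∧ LinEquiv c u ∧ (∀ S, 0 ≤ u S) ∧
      ∀ S : Finset (Fin p), 2 ≤ S.card → S.card < p → ε / 3 - negPart c ≤ u S) ∧ Nef c ∧
    ∀ (q : ℕ) (B : Fin q → Finset (Fin p)) (m : Finset (Fin q) → ℕ) (d : ℕ), 3 ≤ q →
      IsStratum B → IsCurve m d →
        4 / p * (ε / 3 - negPart c) * logDegree m d ≤ degree c B m d ∧
          ((∃ S, m S ≠ 0) → 0 < logDegree m d) := by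
  refine ⟨?_, ?_, ?_⟩
  · have h1 : ∀ S : Finset (Fin p), 2 ≤ S.card → S.card < p → ε / 3 - negPart c ≤
        rep c (fun i : Fin p => ({i} : Finset (Fin p))) S := by
      intro S hS hS'
      rw [neg_eq]
      exact rep_low (fun i => singleton_nonempty i) hdid (hc.1 ∅ (by simp)) hε hF hS hS'
    refine ⟨_, (rep_top hc).1, (rep_top hc).2, fun S => ?_, h1⟩
    rcases Nat.lt_or_ge S.card 2 with h | h
    · rw [(rep_top hc).1.1 S (by omega)]
    · rcases Nat.lt_or_ge S.card p with h' | h'
      · linarith [h1 S h h']
      · have h2 := card_le_univ S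
        rw [Fintype.card_fin] at h2
        have h3 : S = univ := by
          rw [← card_eq_iff_eq_univ, Fintype.card_fin]
          omega
        rw [h3, (rep_top hc).1.2]
  · intro q B m d hB hm
    refine le_trans ?_ (low hc hε hF hB hm)
    exact mul_nonneg (by linarith) (sum_nonneg fun S _ => Nat.cast_nonneg _)
  · intro q B m d hq hB hm
    refine ⟨le_trans ?_ (low hc hε hF hB hm), fun hS => R647.FC.lc_pos hm hS⟩
    have hpq := size hB
    have h1 : (q : ℝ) * logDegree m d =
        ∑ S : Finset (Fin q), (m S : ℝ) * (((S.card : ℝ) - 1) * (q - S.card)) :=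
      R647.FC.q_lc hm
    have h2 : (q : ℝ) * logDegree m d ≤ (q : ℝ) * ((q : ℝ) / 4 * ∑ S : Finset (Fin q), (m S : ℝ)) := by
      rw [h1, mul_sum, mul_sum]
      refine sum_le_sum fun S _ => ?_
      have h3 : (0 : ℝ) ≤ m S := Nat.cast_nonneg _
      have h4 : (0 : ℝ) ≤ q := Nat.cast_nonneg _
      have h5 : ((S.card : ℝ) - 1) * (q - S.card) ≤ q * (q / 4) := by
        nlinarith [sq_nonneg ((q : ℝ) - 2 * S.card), (Nat.cast_nonneg S.card : (0 : ℝ) ≤ S.card),
          (by exact_mod_cast (card_le_univ S).trans_eq (Fintype.card_fin q) :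
            (S.card : ℝ) ≤ q)]
      calc (m S : ℝ) * (((S.card : ℝ) - 1) * (q - S.card)) ≤ m S * (q * (q / 4)) :=
            mul_le_mul_of_nonneg_left h5 h3
        _ = (q : ℝ) * ((q : ℝ) / 4 * (m S : ℝ)) := by ring
    have hq0 : (0 : ℝ) < q := by
      have : 0 < q := by omega
      exact_mod_cast this
    have hp0 : (0 : ℝ) < p := by
      have : 0 < p := by omega
      exact_mod_cast this
    have h6 : logDegree m d ≤ (q : ℝ) / 4 * ∑ S : Finset (Fin q), (m S : ℝ) :=
      le_of_mul_le_mul_left h2 hq0
    have h7 : (0 : ℝ) ≤ ∑ S : Finset (Fin q), (m S : ℝ) := sum_nonneg fun S _ => Nat.cast_nonneg _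
    have h8 : logDegree m d ≤ (p : ℝ) / 4 * ∑ S : Finset (Fin q), (m S : ℝ) := by
      refine h6.trans (mul_le_mul_of_nonneg_right ?_ h7)
      have : (q : ℝ) ≤ p := by exact_mod_cast hpq
      linarith
    have h9 : (0 : ℝ) ≤ 4 / p * (ε / 3 - negPart c) := by
      apply mul_nonneg (by positivity)
      linarith
    calc 4 / p * (ε / 3 - negPart c) * logDegree m d ≤
          4 / p * (ε / 3 - negPart c) * ((p : ℝ) / 4 * ∑ S : Finset (Fin q), (m S : ℝ)) :=
            mul_le_mul_of_nonneg_left h8 h9
      _ = (ε / 3 - negPart c) * ∑ S : Finset (Fin q), (m S : ℝ) := by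
            field_simp

theorem cross_divisor {i j k l : Fin p} (hij : i ≠ j) (hkl : k ≠ l) :
    IsDivisor (cross i j k l) := by
  constructor
  · intro S hS
    unfold cross
    rw [if_neg, if_neg, add_zero]
    · rintro ⟨h1, h2, -⟩
      exact hkl (card_le_one.1 hS _ h1 _ h2)
    · rintro ⟨h1, h2, -⟩
      exact hij (card_le_one.1 hS _ h1 _ h2)
  · unfold cross
    simp

theorem crossInfty_divisor {i j k : Fin p} (hij : i ≠ j) : IsDivisor (crossInfty i j k) := by
  constructor
  · intro S hS
    unfold crossInfty
    rw [if_neg]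
    rintro ⟨h1, h2, -⟩
    exact hij (card_le_one.1 hS _ h1 _ h2)
  · unfold crossInfty
    simp

end proofs

/-- Let `D = ∑ c S • δ_S` be a divisor on `M̄_{0,p+1}` with real coefficients.

1. If the coordinates of `D` at the `T` with `|T| ≥ 5` are nonnegative and the degrees of `D` on the
   F-curves are nonnegative, then `D` is nef and linearly equivalent to an effective sum of boundary
   divisors.
2. If the degrees of `D` on the F-curves are at least `ε ≥ 0` and `negPart c ≤ ε / 3`, then `D` is nef
   and linearly equivalent to an effective sum of boundary divisors in which all the coefficients are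
   at least `ε / 3 - negPart c`, and on every curve the degree of `D` is at least
   `(4 / p) (ε / 3 - negPart c)` times the degree of `K + Δ`, which is positive on all nonzero curve
   classes.  So `D` is ample if `negPart c < ε / 3`.
3. `D` is linearly equivalent to the sum of the `coord c T • block T`, `|T| ≥ 3`, and two divisors are
   linearly equivalent iff all these coordinates agree.
4. The `block T` are effective sums of boundary divisors, their coordinates are those of a basis, and
   `block T` has degree one on the F-curves of type `(A, B, C)` for which `A`, `B`, `C` contain an odd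
   number of elements of `T`, and degree zero on the other F-curves.
5. For `|T| = 4` and `|T| = 3` the divisor `block T` is the pullback of a point under a forgetful map
   `M̄_{0,p+1} → M̄_{0,4}`; for these `T` the coordinates are arbitrary in part 1: every linear
   combination of these pullbacks that is nonnegative on the F-curves is nef and linearly equivalent
   to an effective sum of boundary divisors. -/
theorem result (p : ℕ) (c : Finset (Fin p) → ℝ) (hc : IsDivisor c) :
    ((∀ T : Finset (Fin p), 5 ≤ T.card → 0 ≤ coord c T) → FBound c 0 →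
      Nef c ∧ BoundaryEffective c) ∧
    (∀ ε : ℝ, 0 ≤ ε → FBound c ε → negPart c ≤ ε / 3 →
      (∃ u : Finset (Fin p) → ℝ, IsDivisor u ∧ LinEquiv c u ∧ (∀ S, 0 ≤ u S) ∧
        ∀ S : Finset (Fin p), 2 ≤ S.card → S.card < p → ε / 3 - negPart c ≤ u S) ∧ Nef c ∧
      ∀ (q : ℕ) (B : Fin q → Finset (Fin p)) (m : Finset (Fin q) → ℕ) (d : ℕ), 3 ≤ q →
        IsStratum B → IsCurve m d →
          4 / p * (ε / 3 - negPart c) * logDegree m d ≤ degree c B m d ∧
            ((∃ S, m S ≠ 0) → 0 < logDegree m d)) ∧
    (LinEquiv c (fun S => ∑ T ∈ univ.filter (fun T : Finset (Fin p) => 3 ≤ T.card),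
        coord c T * block T S) ∧
      ∀ u : Finset (Fin p) → ℝ, IsDivisor u →
        (LinEquiv c u ↔ ∀ T : Finset (Fin p), 3 ≤ T.card → coord c T = coord u T)) ∧
    (∀ T : Finset (Fin p), 3 ≤ T.card → IsDivisor (block T) ∧ (∀ S, 0 ≤ block T S) ∧
      (∀ T' : Finset (Fin p), 3 ≤ T'.card → coord (block T) T' = if T' = T then 1 else 0) ∧
      ∀ A B C : Finset (Fin p), Disjoint A B → Disjoint A C → Disjoint B C →
        fdegree (block T) A B C =
          if Odd (T ∩ A).card ∧ Odd (T ∩ B).card ∧ Odd (T ∩ C).card then 1 else 0) ∧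
    (∀ i j k l : Fin p, i ≠ j → i ≠ k → i ≠ l → j ≠ k → j ≠ l → k ≠ l →
      IsDivisor (cross i j k l) ∧ LinEquiv (cross i j k l) (block {i, j, k, l})) ∧
    (∀ i j k : Fin p, i ≠ j → i ≠ k → j ≠ k →
      IsDivisor (crossInfty i j k) ∧ LinEquiv (crossInfty i j k) (block {i, j, k})) ∧
    (∀ x : Finset (Fin p) → ℝ,
      FBound (fun S => ∑ T ∈ univ.filter (fun T : Finset (Fin p) => T.card = 3 ∨ T.card = 4),
        x T * block T S) 0 →
      Nef (fun S => ∑ T ∈ univ.filter (fun T : Finset (Fin p) => T.card = 3 ∨ T.card = 4),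
        x T * block T S) ∧
      BoundaryEffective (fun S =>
        ∑ T ∈ univ.filter (fun T : Finset (Fin p) => T.card = 3 ∨ T.card = 4),
          x T * block T S)) := by
  have part1 : ∀ c : Finset (Fin p) → ℝ, IsDivisor c →
      (∀ T : Finset (Fin p), 5 ≤ T.card → 0 ≤ coord c T) → FBound c 0 →
      Nef c ∧ BoundaryEffective c := by
    intro c hc h1 h2
    have h3 := neg_zero' h1
    obtain ⟨⟨u, k1, k2, k3, -⟩, k4, -⟩ := main hc le_rfl h2 (by rw [h3]; norm_num)
    exact ⟨k4, u, k1, k2, k3⟩
  refine ⟨part1 c hc, fun ε hε hF hn => main hc hε hF hn, ⟨expansion hc, fun u hu => classes hc hu⟩,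
    fun T hT => ⟨block_divisor T, block_nonneg T, fun T' hT' => coord_block T hT',
      fun A B C h1 h2 h3 => block_fdegree T h1 h2 h3⟩, ?_, ?_, ?_⟩
  · intro i j k l hij hik hil hjk hjl hkl
    refine ⟨cross_divisor hij hkl, (classes (cross_divisor hij hkl) (block_divisor _)).2 ?_⟩
    · intro T hT
      rw [coord_block _ hT, coord_hat]
      have h1 : L5helper90.FF.hat (cross i j k l) T = if T = {i, j, k, l} then 2 ^ p / 8 else 0 :=
        L5helper90.FF.hat_four hij hik hil hjk hjl hkl hT
      rw [h1]
      have h1 : (2 : ℝ) ^ p ≠ 0 := by positivity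
      split_ifs
      · field_simp
      · ring
  · intro i j k hij hik hjk
    refine ⟨crossInfty_divisor hij, (classes (crossInfty_divisor hij) (block_divisor _)).2 ?_⟩
    · intro T hT
      rw [coord_block _ hT, coord_hat]
      have h1 : L5helper90.FF.hat (crossInfty i j k) T = if T = {i, j, k} then 2 ^ p / 8 else 0 :=
        L5helper90.FF.hat_three hij hik hjk hT
      rw [h1]
      have h1 : (2 : ℝ) ^ p ≠ 0 := by positivity
      split_ifs
      · field_simp
      · ring
  · intro x hF
    refine part1 _ ⟨fun S hS => ?_, ?_⟩ (fun T hT => ?_) hF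
    · exact sum_eq_zero fun T _ => by
        rw [(block_divisor T).1 S hS, mul_zero]
    · exact sum_eq_zero fun T _ => by
        rw [(block_divisor T).2, mul_zero]
    · rw [coord_hat, L5helper90.FF.hat_sum]
      apply le_of_eq
      symm
      apply mul_eq_zero_of_right
      refine sum_eq_zero fun T' hT' => ?_
      rw [L5helper90.FF.hat_smul, hat_block T' (by omega), if_neg, mul_zero]
      rintro rfl
      have := (mem_filter.1 hT').2
      omega

end Pool.Agent.Results.MP_23e236_ag.ConformalBlockCoordinates
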