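import Pool.Agent.L5helper22.LC.Main

set_option autoImplicit false

/-!
# The F-conjecture for divisors with few heavy marks and few classes of light marks

Let `H` be a nonempty set of `k` marks of `M̄_{0,n}`, the heavy marks; the other `n - k` marks are
light. The divisors of degree zero on the F-curves which have all the heavy marks in one of the four
parts are the pullbacks from Hassett's space with `k` heavy marks and `n - k` marks of small weight
(`k ≥ 2`; they are numerically trivial for `k = 1`, and the case `k = 2`, the toric space of Losev
and Manin, is known). Two marks are interchangeable for a divisor if it is invariant under the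
transposition.

Theorem. Let `D` be an F-nef divisor with real coefficients, of degree zero on the F-curves which have
all the heavy marks in one part, and let the light marks be divided in `r` classes of interchangeable
marks.

* `D` is nef if and only if it has nonnegative degree on the curves in the strata with `q` parts,
  `9 ≤ q ≤ k + r`, such that every class of light marks meets at most one of the parts without heavy
  marks. So all the curves in strata with more than `k + r` parts are superfluous, for all `n`.
* If `k + r ≤ 8` then `D` is linearly equivalent to an effective sum of boundary divisors, and its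
  restriction to every stratum has nonnegative degree on every curve: the strong F-conjecture and the
  F-conjecture hold for these divisors, for all `n`.

Examples, for all `n`: the divisors pulled back from Hassett's spaces with seven heavy marks which
are invariant under the permutations of the `n - 7` light marks (`k = 7`, `r = 1`), for instance all
the divisors `a λ - b₀ δ₀ - ∑ b_(i,S) δ_(i,S)` on `M̄_{g,k}`, `k ≤ 7`, with `b_(i,∅)` a quadratic
polynomial in `i` which vanishes for `i = 0`, by the flag map and the theorem of Gibney, Keel and
Morrison; the divisors which are invariant under `S_a × S_b`, for six heavy marks and `a + b` light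
ones; and so on. The starting file `ThreeHeavyMarks` treats three heavy marks and light marks without
symmetry; `InterchangeableMarks` bounds the number of interchangeable marks (by two if there are
seven other marks) and supposes nothing on the F-curves.

Proof. In a suitable normalisation the coefficients vanish on the sets of light marks, and the
function `t ↦ c (U ∪ T)`, `T` a set of `t` interchangeable light marks, is concave for a nonempty
complement; so the degree of `D` on a curve in a stratum is at least a weighted mean of the degrees
for the strata in which the parts with light marks of a class are united. For the effective sum: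
`D` restricted to the divisors in which the marks of a class come together is an effective sum of
boundary divisors of `M̄_{0,s}`, `s ≤ k + r ≤ 8`, with the correction given by a symmetric matrix
(every F-nef divisor on `M̄_{0,8}` is effective: Fedorchuk and Mellit, proved again in the imported
files); the matrix for `M̄_{0,n}` distributes its entries equally on the marks of the classes, and the
corrected coefficient of `δ_U` is, by the concavity, at least the mean of the ones for
`U` with a class added and `U` with the class removed.

Curves. As in the starting files, a curve in `M̄_{0,n}` is given by a stratum and the classes of the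
projections to the factors `M̄_{0,q}`; the theorem is proved for all families `𝒞 q` of sets of classes
of curves in `M̄_{0,q}` which meet the interior, provided that they are closed under the push-forward
by the forgetful maps.
-/

namespace Pool.Agent.Results.MP_23e236_ag.LightClasses

open Finset Pool.Agent.NH37.FC Pool.Agent.NH37.SL Pool.Agent.NH37.MF Pool.Agent.NH46.F8

/-- `𝒞 q` is for all `q` a set of classes of curves in `M̄_{0,q}` which meet the interior, closed
under the push-forward by the forgetful maps `M̄_{0,q} → M̄_{0,s}`, `s ≥ 4`. -/
def IsFamily (𝒞 : (q : ℕ) → (Finset (Fin q) → ℝ) → (Fin q → ℝ) → Prop) : Prop :=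
  (∀ q m ψ, 𝒞 q m ψ → IsCurve m ψ) ∧
    ∀ (q s : ℕ) (p : Fin s → Fin q), 4 ≤ s → Function.Injective p →
      ∀ m ψ, 𝒞 q m ψ → 𝒞 s (pushM p m) (pushPsi p m ψ)

/-- The family of all classes with the numerical properties of a curve. -/
theorem isFamily_isCurve : IsFamily fun _ m ψ => IsCurve m ψ :=
  ⟨fun _ _ _ h => h, fun _ _ _ _ hp _ _ h => isCurve_push hp h⟩

/-- Degree zero on the F-curves which have all the marks of `H` in the fourth part. -/
def LightZero {n : ℕ} (c : Finset (Fin n) → ℝ) (H : Finset (Fin n)) : Prop :=
  ∀ A B C : Finset (Fin n), A.Nonempty → B.Nonempty → C.Nonempty → Disjoint A B →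
    Disjoint A C → Disjoint B C → Disjoint A H → Disjoint B H → Disjoint C H → fdeg c A B C = 0

/-- In the stratum of the partition `B` every class of light marks meets at most one of the parts
without heavy marks. -/
def IsMerged {n r q : ℕ} (H : Finset (Fin n)) (κ : Fin n → Fin r) (B : Fin q → Finset (Fin n)) :
    Prop :=
  ∀ x y, κ x = κ y → ∀ i j, x ∈ B i → y ∈ B j → Disjoint (B i) H → Disjoint (B j) H → i = j

/-- **The F-conjecture for divisors with few heavy marks and few classes of light marks.** -/
theorem result {n r : ℕ} {H : Finset (Fin n)} {κ : Fin n → Fin r} {c : Finset (Fin n) → ℝ}
    (hc : IsDivisor c) (hF : FNef c) (hH : H.Nonempty) (hz : LightZero c H)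
    (hκ : ∀ x ∉ H, ∀ y ∉ H, κ x = κ y → Exch c {x} {y})
    {𝒞 : (q : ℕ) → (Finset (Fin q) → ℝ) → (Fin q → ℝ) → Prop} (h𝒞 : IsFamily 𝒞) :
    (Nef 𝒞 c ↔ ∀ (q : ℕ) (B : Fin q → Finset (Fin n)), 9 ≤ q → q ≤ H.card + r → IsPartition B →
      IsMerged H κ B → ∀ m ψ, 𝒞 q m ψ → 0 ≤ degree c B m ψ) ∧
    (H.card + r ≤ 8 → Eff c ∧ Nef 𝒞 c) :=
  ⟨Pool.Agent.L5helper22.LC.crit hc hF hH hz hκ h𝒞.1 h𝒞.2,
    fun h8 => Pool.Agent.L5helper22.LC.main hc hF hH hz hκ h8 h𝒞.1 h𝒞.2⟩

end Pool.Agent.Results.MP_23e236_ag.LightClasses
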