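import Pool.Agent.L5helper27.FD.Ext

set_option autoImplicit false

/-!
# The F-conjecture without marked points implies the F-conjecture

Divisors on `M̄_{0,q}`.  The marks are the elements of `Fin q`.  A function `c` on the subsets with
`c Sᶜ = c S` stands for the divisor `∑ c S • δ_S`, one term for each of the pairs `{S, Sᶜ}` of
nonempty sets; here `δ_{i} = - ψ_i` for the marks `i`.

Divisors on `M̄_g`.  The numbers `a`, `b₀` and the function `b` with `b (g - i) = b i` stand for the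
divisor `a λ - b₀ δ₀ - ∑ b i • δ_i`, one term for each of the pairs `{i, g - i}`, `0 < i < g`.

The stratum.  If `n i` (`i : Fin s`) are positive numbers with the sum `g`, attaching to the mark `i`
a fixed curve of genus `n i` gives a map `M̄_{0,s} → M̄_g`; the divisor `a λ - b₀ δ₀ - ∑ b i • δ_i` is
pulled back to the divisor with the coefficients `c S = - b (∑ i ∈ S, n i)`.

Theorem.  For every `g ≥ (q+1)^(2q+4)`, every F-nef divisor on `M̄_{0,q}` is linearly equivalent to
the pullback of an F-nef divisor on `M̄_g`, and every F-ample divisor to the pullback of an F-ample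
one.  So the F-conjecture for infinitely many of the spaces `M̄_g` (without marked points) implies the
F-conjecture for all the spaces `M̄_{0,q}`.

Proof.  There are numbers `n i ≥ 2` with the sum `g` such that every number up to `g` has at most one
representation as a sum of numbers `n i` with multiplicities.  Let `- b s = c S` if `s` is the sum
of the `n i`, `i ∈ S`.  For the other numbers `s` let `- b s = - Λ^h` with a large `Λ`, where the
height `h` depends only on `t = min (s, g - s)`: it is the number of summands if `t` is a sum of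
numbers `n i` with multiplicities, and `g + 1 + g - t` otherwise.  If four positive numbers with the
sum `g` do not come from a partition of the marks, one of them has a height greater than the heights
of the sums of two of them; so the F-inequality is satisfied.  Finally a multiple of
`∑ i (g - i) δ_i`, whose pullback to `M̄_{0,q}` is trivial, is subtracted.
-/

namespace Pool.Agent.Results.MP_23e236_ag.UnmarkedSuffices

open Finset

/-! ### Divisors on `M̄_{0,q}` -/

section

variable {q : ℕ}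

/-- `c` stands for the divisor `∑ c S • δ_S` on `M̄_{0,q}`, the sum over the pairs `{S, Sᶜ}` of
nonempty sets of marks, where `δ_{i} = - ψ_i`. -/
def IsDivisor (c : Finset (Fin q) → ℝ) : Prop :=
  ∀ S : Finset (Fin q), S.Nonempty → S ≠ univ → c Sᶜ = c S

/-- `A, B, C, D` is a partition of the marks in four nonempty parts. -/
def IsPartition (A B C D : Finset (Fin q)) : Prop :=
  A.Nonempty ∧ B.Nonempty ∧ C.Nonempty ∧ D.Nonempty ∧
    Disjoint A B ∧ Disjoint A C ∧ Disjoint A D ∧ Disjoint B C ∧ Disjoint B D ∧ Disjoint C D ∧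
    A ∪ B ∪ C ∪ D = univ

/-- The degree of `∑ c S • δ_S` on the F-curve of the partition `A, B, C, D`: the F-curve has degree
`1` on `δ_(A∪B), δ_(A∪C), δ_(A∪D)`, degree `-1` on `δ_A, δ_B, δ_C, δ_D` and `0` on the others. -/
def fdegree (c : Finset (Fin q) → ℝ) (A B C D : Finset (Fin q)) : ℝ :=
  c (A ∪ B) + c (A ∪ C) + c (A ∪ D) - c A - c B - c C - c D

/-- The divisor is F-nef. -/
def FNef (c : Finset (Fin q) → ℝ) : Prop :=
  ∀ A B C D : Finset (Fin q), IsPartition A B C D → 0 ≤ fdegree c A B C D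

/-- The divisor is F-ample. -/
def FAmple (c : Finset (Fin q) → ℝ) : Prop :=
  ∀ A B C D : Finset (Fin q), IsPartition A B C D → 0 < fdegree c A B C D

end

/-! ### Divisors on `M̄_g` -/

/-- `a`, `b₀`, `b` stand for the divisor `a λ - b₀ δ₀ - ∑ b i • δ_i` on `M̄_g`, the sum over the pairs
`{i, g - i}`, `0 < i < g`. -/
def IsDivisorGenus (g : ℕ) (b : ℕ → ℝ) : Prop :=
  ∀ i, 0 < i → i < g → b (g - i) = b i

/-- The degrees of `a λ - b₀ δ₀ - ∑ b i • δ_i` on the F-curves of `M̄_g`, up to positive factors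
(Gibney, Keel and Morrison, Theorem 2.1). -/
def fdegreesGenus (g : ℕ) (a b₀ : ℝ) (b : ℕ → ℝ) : Set ℝ :=
  {x | x = a - 12 * b₀ + b 1 ∨ x = b₀ ∨
    (∃ i, 1 ≤ i ∧ i + 2 ≤ g ∧ x = b i) ∨
    (∃ i, 1 ≤ i ∧ i + 1 ≤ g ∧ x = 2 * b₀ - b i) ∨
    (∃ i j, 1 ≤ i ∧ 1 ≤ j ∧ i + j + 1 ≤ g ∧ x = b i + b j - b (i + j)) ∨
    ∃ i j k l, 1 ≤ i ∧ 1 ≤ j ∧ 1 ≤ k ∧ 1 ≤ l ∧ i + j + k + l = g ∧
      x = b i + b j + b k + b l - b (i + j) - b (i + k) - b (i + l)}

/-- The divisor on `M̄_g` is F-nef. -/
def FNefGenus (g : ℕ) (a b₀ : ℝ) (b : ℕ → ℝ) : Prop := ∀ x ∈ fdegreesGenus g a b₀ b, 0 ≤ x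

/-- The divisor on `M̄_g` is F-ample. -/
def FAmpleGenus (g : ℕ) (a b₀ : ℝ) (b : ℕ → ℝ) : Prop := ∀ x ∈ fdegreesGenus g a b₀ b, 0 < x

/-! ### Curves -/

/-- `m S` are the intersection numbers with the boundary divisors `δ_S`, `2 ≤ |S| ≤ s - 2`, and `ψ i`
the degrees on the classes `ψ_i` of a one-dimensional cycle on `M̄_{0,s}`, `4 ≤ s`: for all
different `i, j, k`, `ψ_i` is the sum of the `δ_S` with `i ∈ S` and `j, k ∉ S`. -/
def IsCurve {s : ℕ} (m : Finset (Fin s) → ℝ) (ψ : Fin s → ℝ) : Prop :=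
  4 ≤ s ∧ (∀ S, m Sᶜ = m S) ∧ (∀ S : Finset (Fin s), S.card ≤ 1 → m S = 0) ∧
    ∀ i j k : Fin s, i ≠ j → i ≠ k → j ≠ k →
      ∑ S ∈ univ.filter (fun S : Finset (Fin s) => i ∈ S ∧ j ∉ S ∧ k ∉ S), m S = ψ i

/-- The degree of `∑ c S • δ_S` on the curve (every pair `{S, Sᶜ}` is counted twice in the first
sum). -/
noncomputable def degree {s : ℕ} (c m : Finset (Fin s) → ℝ) (ψ : Fin s → ℝ) : ℝ :=
  (∑ S, c S * m S) / 2 - ∑ i, c {i} * ψ i

/-- Families of classes of curves: `𝒞 s` is a set of classes of curves in `M̄_{0,s}`, for example the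
classes of the irreducible curves that meet the interior, over some field. -/
abbrev Family : Type := (s : ℕ) → Set ((Finset (Fin s) → ℝ) × (Fin s → ℝ))

/-- The divisor `∑ c S • δ_S` on `M̄_{0,q}` has nonnegative degree on all curves.  A curve is contained
in a unique smallest stratum, and its class is the sum of the classes of its projections to the
factors `M̄_{0,s}` of the stratum, which meet the interior; a factor is given by a surjective map
`f : Fin q → Fin s`, and the divisor is pulled back to the divisor with the coefficients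
`c (f⁻¹ T)`. -/
def Nef (𝒞 : Family) {q : ℕ} (c : Finset (Fin q) → ℝ) : Prop :=
  ∀ (s : ℕ) (f : Fin q → Fin s), Function.Surjective f → ∀ x ∈ 𝒞 s,
    0 ≤ degree (fun T => c (univ.filter fun i => f i ∈ T)) x.1 x.2

/-- The divisor `a λ - b₀ δ₀ - ∑ b i • δ_i` has nonnegative degree on all curves of the strata
`M̄_{0,s} → M̄_g` given by curves of genus `n i` attached to the marks. -/
def NefGenus (𝒞 : Family) (g : ℕ) (b : ℕ → ℝ) : Prop :=
  ∀ (s : ℕ) (n : Fin s → ℕ), (∀ i, 0 < n i) → ∑ i, n i = g → ∀ x ∈ 𝒞 s,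
    0 ≤ degree (fun T => - b (∑ i ∈ T, n i)) x.1 x.2

/-! ### The extension -/

open Pool.Agent.L5helper27.FD in
theorem extension {q : ℕ} (hq : 0 < q) (c : Finset (Fin q) → ℝ) (hc : IsDivisor c) (hF : FNef c)
    (g : ℕ) (hg : (q + 1) ^ (2 * q + 4) ≤ g) :
    ∃ (n : Fin q → ℕ) (a b₀ κ : ℝ) (b : ℕ → ℝ), (∀ i, 2 ≤ n i) ∧ ∑ i, n i = g ∧
      IsDivisorGenus g b ∧ FNefGenus g a b₀ b ∧ (FAmple c → FAmpleGenus g a b₀ b) ∧
      ∀ S : Finset (Fin q), S.Nonempty → S ≠ univ →
        c S = - b (∑ i ∈ S, n i) + κ * ∑ i ∈ S, ∑ j ∈ Sᶜ, (n i : ℝ) * n j := by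
  classical
  obtain ⟨K, hK0, hK⟩ : ∃ K : ℝ, 0 ≤ K ∧ ∀ S, |c S| ≤ K :=
    ⟨∑ S, |c S|, sum_nonneg fun _ _ => abs_nonneg _,
      fun S => single_le_sum (f := fun S => |c S|) (fun _ _ => abs_nonneg _) (mem_univ S)⟩
  obtain ⟨w, hw, hw2, hwg⟩ := exists_uni hq hg
  set N := tot w with hN
  have hgN : g = N := hwg.symm
  set γ := ext w c (6 * K + 4) with hγ
  obtain ⟨G, hG0, hG⟩ : ∃ G : ℝ, 0 < G ∧ ∀ s, |γ s| ≤ G := by
    refine ⟨K + (6 * K + 4) ^ (N + 1 + N), ?_, ?_⟩
    · positivity
    · intro s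
      apply abs_ext_le hK0 hK
      by_cases h : s ≤ tot w
      · exact ht_le hw h
      · unfold ht
        split_ifs with h1 h2
        · exact Nat.zero_le _
        · have h3 := h2.choose_spec
          have h4 : L5helper27.FD.fold w s = 0 := by unfold L5helper27.FD.fold; omega
          have := hw.len_le_sig h2.choose
          omega
        · omega
  have hG1 : ∀ s, γ s ≤ G := fun s => (abs_le.1 (hG s)).2
  have hG2 : ∀ s, -G ≤ γ s := fun s => (abs_le.1 (hG s)).1
  set b : ℕ → ℝ := fun i => - γ i + 2 * G * (i * ((N : ℝ) - i)) with hb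
  set b₀ : ℝ := G + 2 * G * (N : ℝ) ^ 2 with hb0
  set a : ℝ := 12 * b₀ + 3 * G + 1 with ha
  have hsym : IsDivisorGenus N b := by
    intro i h0 h1
    have e : γ (N - i) = γ i := ext_compl hw hc _ h0 h1
    simp only [hb]
    rw [e, Nat.cast_sub h1.le]
    ring
  -- the degrees on the F-curves of the last type
  have hfour : ∀ i j k l : ℕ, 1 ≤ i → 1 ≤ j → 1 ≤ k → 1 ≤ l → i + j + k + l = N →
      (∃ A B C D : Finset (Fin q), IsPartition A B C D ∧
        b i + b j + b k + b l - b (i + j) - b (i + k) - b (i + l) = fdegree c A B C D) ∨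
      0 < b i + b j + b k + b l - b (i + j) - b (i + k) - b (i + l) := by
    intro i j k l hi hj hk hl hs
    have hNr : (N : ℝ) = i + j + k + l := by rw [← hs]; push_cast; ring
    have e : b i + b j + b k + b l - b (i + j) - b (i + k) - b (i + l) =
        γ (i + j) + γ (i + k) + γ (i + l) - γ i - γ j - γ k - γ l := by
      simp only [hb]
      push_cast
      rw [hNr]
      ring
    rw [e]
    rcases deg_or_pos hw (c := c) hc hK0 hK hi hj hk hl hs with ⟨A, B, C, D, hP, h⟩ | h
    · exact Or.inl ⟨A, B, C, D, hP, h⟩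
    · exact Or.inr h
  have hmid : ∀ i j : ℕ, 1 ≤ i → 1 ≤ j → 0 < b i + b j - b (i + j) := by
    intro i j hi hj
    have e : b i + b j - b (i + j) = γ (i + j) - γ i - γ j + 4 * G * (i * j) := by
      simp only [hb]
      push_cast
      ring
    rw [e]
    have h1 : (1 : ℝ) ≤ (i : ℝ) * j := by
      have : 1 ≤ i * j := Nat.mul_pos hi hj
      exact_mod_cast this
    have h2 : 4 * G * 1 ≤ 4 * G * (i * j) := mul_le_mul_of_nonneg_left h1 (by linarith)
    have := hG2 (i + j)
    have := hG1 i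
    have := hG1 j
    linarith
  have hsing : ∀ i : ℕ, 1 ≤ i → i + 1 ≤ N → 0 < b i := by
    intro i hi hi2
    have h1 : (1 : ℝ) ≤ (i : ℝ) * ((N : ℝ) - i) := by
      have h3 : (1 : ℝ) ≤ i := by exact_mod_cast hi
      have h4 : (1 : ℝ) ≤ (N : ℝ) - i := by
        have : ((i + 1 : ℕ) : ℝ) ≤ N := by exact_mod_cast hi2
        push_cast at this
        linarith
      nlinarith
    have h2 : 2 * G * 1 ≤ 2 * G * (i * ((N : ℝ) - i)) :=
      mul_le_mul_of_nonneg_left h1 (by linarith)
    have := hG1 i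
    simp only [hb]
    linarith
  have hlt : ∀ i : ℕ, b i < 2 * b₀ := by
    intro i
    have h1 : (i : ℝ) * ((N : ℝ) - i) ≤ (N : ℝ) ^ 2 := by
      nlinarith [sq_nonneg ((i : ℝ) - N), sq_nonneg (i : ℝ), sq_nonneg (N : ℝ)]
    have h2 : 2 * G * (i * ((N : ℝ) - i)) ≤ 2 * G * (N : ℝ) ^ 2 :=
      mul_le_mul_of_nonneg_left h1 (by linarith)
    have h3 : 0 ≤ 2 * G * (N : ℝ) ^ 2 := by positivity
    have := hG2 i
    simp only [hb, hb0]
    linarith
  have hb0pos : 0 < b₀ := by
    have h3 : 0 ≤ 2 * G * (N : ℝ) ^ 2 := by positivity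
    simp only [hb0]
    linarith
  have hfirst : 0 < a - 12 * b₀ + b 1 := by
    have h1 : -(2 * G) ≤ 2 * G * (((1 : ℕ) : ℝ) * ((N : ℝ) - ((1 : ℕ) : ℝ))) := by
      have : (0 : ℝ) ≤ N := Nat.cast_nonneg _
      push_cast
      nlinarith
    have := hG1 1
    simp only [ha, hb]
    linarith
  rw [hgN]
  refine ⟨w, a, b₀, 2 * G, b, hw2, rfl, hsym, ?_, ?_, ?_⟩
  · rintro x (rfl | rfl | ⟨i, h1, h2, rfl⟩ | ⟨i, h1, h2, rfl⟩ | ⟨i, j, h1, h2, h3, rfl⟩ |
      ⟨i, j, k, l, h1, h2, h3, h4, h5, rfl⟩)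
    · exact hfirst.le
    · exact hb0pos.le
    · exact (hsing i h1 (by omega)).le
    · have := hlt i; linarith
    · exact (hmid i j h1 h2).le
    · rcases hfour i j k l h1 h2 h3 h4 h5 with ⟨A, B, C, D, hP, h⟩ | h
      · rw [h]; exact hF A B C D hP
      · exact h.le
  · intro hA
    rintro x (rfl | rfl | ⟨i, h1, h2, rfl⟩ | ⟨i, h1, h2, rfl⟩ | ⟨i, j, h1, h2, h3, rfl⟩ |
      ⟨i, j, k, l, h1, h2, h3, h4, h5, rfl⟩)
    · exact hfirst
    · exact hb0pos
    · exact hsing i h1 (by omega)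
    · have := hlt i; linarith
    · exact hmid i j h1 h2
    · rcases hfour i j k l h1 h2 h3 h4 h5 with ⟨A, B, C, D, hP, h⟩ | h
      · rw [h]; exact hA A B C D hP
      · exact h
  · intro S hS hS'
    have e1 : γ (∑ i ∈ S, w i) = c S := ext_wS hw c _ S
    have e2 : ((∑ i ∈ S, w i : ℕ) : ℝ) * ((N : ℝ) - ((∑ i ∈ S, w i : ℕ) : ℝ)) =
        ∑ i ∈ S, ∑ j ∈ Sᶜ, (w i : ℝ) * w j := by
      have e3 : (N : ℝ) - ((∑ i ∈ S, w i : ℕ) : ℝ) = ((∑ i ∈ Sᶜ, w i : ℕ) : ℝ) := by
        have := wS_compl (w := w) S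
        unfold wS at this
        have h2 : ((∑ i ∈ S, w i : ℕ) : ℝ) + ((∑ i ∈ Sᶜ, w i : ℕ) : ℝ) = N := by
          rw [← Nat.cast_add, this]
        linarith
      rw [e3, Nat.cast_sum, Nat.cast_sum, sum_mul_sum]
    simp only [hb]
    rw [e1, e2]
    ring

/-! ### Linear equivalence -/

section cut

variable {s : ℕ} {m : Finset (Fin s) → ℝ} {ψ : Fin s → ℝ}

/-- The divisors that separate `i` and `j`. -/
lemma sum_separating (h : IsCurve m ψ) {i j : Fin s} (hij : i ≠ j) :
    ∑ S ∈ univ.filter (fun S : Finset (Fin s) => i ∈ S ∧ j ∉ S), m S = ψ i + ψ j := by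
  classical
  obtain ⟨h4, hsym, h0, hpsi⟩ := h
  obtain ⟨k, hk⟩ : ∃ k : Fin s, k ∉ ({i, j} : Finset (Fin s)) := by
    by_contra hne
    push Not at hne
    have h1 : (univ : Finset (Fin s)) ⊆ {i, j} := fun x _ => hne x
    have h2 := card_le_card h1
    rw [card_univ, Fintype.card_fin] at h2
    have h3 : ({i, j} : Finset (Fin s)).card ≤ 2 := card_le_two
    omega
  rw [mem_insert, mem_singleton, not_or] at hk
  have e1 : univ.filter (fun S : Finset (Fin s) => i ∈ S ∧ j ∉ S) =
      univ.filter (fun S : Finset (Fin s) => i ∈ S ∧ j ∉ S ∧ k ∉ S) ∪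
      univ.filter (fun S : Finset (Fin s) => i ∈ S ∧ j ∉ S ∧ k ∈ S) := by
    ext S
    simp only [mem_filter, mem_univ, true_and, mem_union]
    tauto
  have hd : Disjoint (univ.filter (fun S : Finset (Fin s) => i ∈ S ∧ j ∉ S ∧ k ∉ S))
      (univ.filter (fun S : Finset (Fin s) => i ∈ S ∧ j ∉ S ∧ k ∈ S)) := by
    rw [disjoint_filter]
    tauto
  rw [e1, sum_union hd, hpsi i j k hij (Ne.symm hk.1) (Ne.symm hk.2)]
  congr 1
  rw [← hpsi j i k (Ne.symm hij) (Ne.symm hk.2) (Ne.symm hk.1)]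
  refine sum_bij' (fun S _ => Sᶜ) (fun S _ => Sᶜ) ?_ ?_ ?_ ?_ ?_
  · intro S hS
    simp only [mem_filter, mem_univ, true_and, mem_compl, not_not] at hS ⊢
    tauto
  · intro S hS
    simp only [mem_filter, mem_univ, true_and, mem_compl, not_not] at hS ⊢
    tauto
  · intro S _; exact compl_compl S
  · intro S _; exact compl_compl S
  · intro S _; exact (hsym S).symm

/-- The divisor with the coefficients `∑ i ∈ S, ∑ j ∉ S, n i * n j` is trivial. -/
lemma cut_degree (h : IsCurve m ψ) (n : Fin s → ℝ) :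
    (∑ S, (∑ i ∈ S, ∑ j ∈ Sᶜ, n i * n j) * m S) / 2 =
      ∑ i, (∑ j ∈ ({i} : Finset (Fin s))ᶜ, n i * n j) * ψ i := by
  classical
  have e1 : ∑ S, (∑ i ∈ S, ∑ j ∈ Sᶜ, n i * n j) * m S =
      ∑ i, ∑ j, n i * n j *
        ∑ S ∈ univ.filter (fun S : Finset (Fin s) => i ∈ S ∧ j ∉ S), m S := by
    have e2 : ∀ S : Finset (Fin s), (∑ i ∈ S, ∑ j ∈ Sᶜ, n i * n j) * m S =
        ∑ i, ∑ j, if i ∈ S ∧ j ∉ S then n i * n j * m S else 0 := by
      intro S
      rw [sum_mul, ← sum_subset (subset_univ S)]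
      · refine sum_congr rfl fun i hi => ?_
        rw [sum_mul, ← sum_subset (subset_univ Sᶜ)]
        · refine sum_congr rfl fun j hj => ?_
          rw [if_pos ⟨hi, mem_compl.1 hj⟩]
        · intro j _ hj
          rw [if_neg fun h => hj (mem_compl.2 h.2)]
      · intro i _ hi
        exact sum_eq_zero fun j _ => if_neg fun h => hi h.1
    rw [sum_congr rfl fun S _ => e2 S, sum_comm]
    refine sum_congr rfl fun i _ => ?_
    rw [sum_comm]
    refine sum_congr rfl fun j _ => ?_
    rw [mul_sum, sum_filter]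
  have e3 : ∀ i j : Fin s, n i * n j *
        ∑ S ∈ univ.filter (fun S : Finset (Fin s) => i ∈ S ∧ j ∉ S), m S =
      if i = j then 0 else n i * n j * (ψ i + ψ j) := by
    intro i j
    split_ifs with hij
    · subst hij
      rw [filter_false_of_mem (fun S _ hS => hS.2 hS.1), sum_empty, mul_zero]
    · rw [sum_separating h hij]
  have e4 : ∑ i, ∑ j, (if i = j then 0 else n i * n j * (ψ i + ψ j)) =
      2 * ∑ i, ∑ j, (if i = j then 0 else n i * n j * ψ i) := by
    have e5 : ∑ i, ∑ j, (if i = j then 0 else n i * n j * ψ j) =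
        ∑ i, ∑ j, (if i = j then 0 else n i * n j * ψ i) := by
      rw [sum_comm]
      refine sum_congr rfl fun i _ => sum_congr rfl fun j _ => ?_
      by_cases hij : i = j
      · subst hij; rfl
      · rw [if_neg hij, if_neg (Ne.symm hij)]; ring
    calc _ = ∑ i, ∑ j, (if i = j then 0 else n i * n j * ψ i) +
        ∑ i, ∑ j, (if i = j then 0 else n i * n j * ψ j) := by
          rw [← sum_add_distrib]
          refine sum_congr rfl fun i _ => ?_
          rw [← sum_add_distrib]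
          refine sum_congr rfl fun j _ => ?_
          split_ifs <;> ring
      _ = _ := by rw [e5]; ring
  rw [e1, sum_congr rfl fun i _ => sum_congr rfl fun j _ => e3 i j, e4]
  rw [mul_div_assoc, mul_comm, div_mul_cancel₀ _ (two_ne_zero)]
  refine sum_congr rfl fun i _ => ?_
  rw [sum_mul, ← sum_subset (subset_univ ({i} : Finset (Fin s))ᶜ)]
  · refine sum_congr rfl fun j hj => ?_
    rw [mem_compl, mem_singleton] at hj
    rw [if_neg (Ne.symm hj)]
  · intro j _ hj
    rw [mem_compl, not_not, mem_singleton] at hj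
    rw [if_pos hj.symm]

end cut

/-- **Main theorem.**

1. Let `g ≥ (q+1)^(2q+4)`.  Every F-nef divisor `∑ c S • δ_S` on `M̄_{0,q}` is linearly equivalent to
the pullback of an F-nef divisor `a λ - b₀ δ₀ - ∑ b i • δ_i` on `M̄_g` to a stratum `M̄_{0,q} → M̄_g`,
given by curves of genus `n i` attached to the marks (the difference is a multiple of the trivial
divisor with the coefficients `∑ i ∈ S, ∑ j ∉ S, n i * n j`); if the first divisor is F-ample, then
so is the second.

2. Let `G` be an infinite set of genera.  For every family of classes of curves: if all F-nef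
divisors on the spaces `M̄_g`, `g ∈ G`, have nonnegative degree on all curves of the strata
`M̄_{0,s} → M̄_g`, then all F-nef divisors on the spaces `M̄_{0,q}` have nonnegative degree on all
curves, and conversely. -/
theorem result :
    (∀ q : ℕ, 0 < q → ∀ c : Finset (Fin q) → ℝ, IsDivisor c → FNef c →
      ∀ g : ℕ, (q + 1) ^ (2 * q + 4) ≤ g →
      ∃ (n : Fin q → ℕ) (a b₀ κ : ℝ) (b : ℕ → ℝ), (∀ i, 2 ≤ n i) ∧ ∑ i, n i = g ∧
        IsDivisorGenus g b ∧ FNefGenus g a b₀ b ∧ (FAmple c → FAmpleGenus g a b₀ b) ∧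
        ∀ S : Finset (Fin q), S.Nonempty → S ≠ univ →
          c S = - b (∑ i ∈ S, n i) + κ * ∑ i ∈ S, ∑ j ∈ Sᶜ, (n i : ℝ) * n j) ∧
    (∀ 𝒞 : Family, (∀ s, ∀ x ∈ 𝒞 s, IsCurve x.1 x.2) → ∀ G : Set ℕ, G.Infinite →
      ((∀ g ∈ G, ∀ (a b₀ : ℝ) (b : ℕ → ℝ), IsDivisorGenus g b → FNefGenus g a b₀ b →
          NefGenus 𝒞 g b) ↔
        (∀ (q : ℕ) (c : Finset (Fin q) → ℝ), IsDivisor c → FNef c → Nef 𝒞 c))) := by
  classical
  refine ⟨fun q hq c hc hF g hg => extension hq c hc hF g hg, fun 𝒞 h𝒞 G hG => ⟨?_, ?_⟩⟩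
  · intro H q c hc hF s f hf x hx
    have hcurve := h𝒞 s x hx
    have h4 := hcurve.1
    set c' : Finset (Fin s) → ℝ := fun T => c (univ.filter fun i => f i ∈ T) with hc'
    have hne : ∀ T : Finset (Fin s), T.Nonempty → (univ.filter fun i => f i ∈ T).Nonempty := by
      rintro T ⟨t, ht⟩
      obtain ⟨i, rfl⟩ := hf t
      exact ⟨i, mem_filter.2 ⟨mem_univ _, ht⟩⟩
    have hcompl : ∀ T : Finset (Fin s), (univ.filter fun i => f i ∈ Tᶜ) =
        (univ.filter fun i => f i ∈ T)ᶜ := by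
      intro T
      ext i
      simp
    have hunion : ∀ T T' : Finset (Fin s), (univ.filter fun i => f i ∈ T ∪ T') =
        (univ.filter fun i => f i ∈ T) ∪ (univ.filter fun i => f i ∈ T') := by
      intro T T'
      ext i
      simp
    have hnu : ∀ T : Finset (Fin s), T ≠ univ → (univ.filter fun i => f i ∈ T) ≠ univ := by
      intro T hT he
      apply hT
      ext t
      simp only [mem_univ, iff_true]
      obtain ⟨i, rfl⟩ := hf t
      have : i ∈ univ.filter fun i => f i ∈ T := by rw [he]; exact mem_univ i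
      exact (mem_filter.1 this).2
    have hdisj : ∀ T T' : Finset (Fin s), Disjoint T T' →
        Disjoint (univ.filter fun i => f i ∈ T) (univ.filter fun i => f i ∈ T') := by
      intro T T' h
      rw [disjoint_filter]
      intro i _ h1 h2
      exact disjoint_left.1 h h1 h2
    have hdiv : IsDivisor c' := by
      intro T hT hT'
      simp only [hc']
      rw [hcompl]
      exact hc _ (hne T hT) (hnu T hT')
    have hFN : FNef c' := by
      rintro A B C D ⟨hA, hB, hC, hD, hAB, hAC, hAD, hBC, hBD, hCD, hu⟩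
      have h1 := hF (univ.filter fun i => f i ∈ A) (univ.filter fun i => f i ∈ B)
        (univ.filter fun i => f i ∈ C) (univ.filter fun i => f i ∈ D)
        ⟨hne _ hA, hne _ hB, hne _ hC, hne _ hD, hdisj _ _ hAB, hdisj _ _ hAC, hdisj _ _ hAD,
          hdisj _ _ hBC, hdisj _ _ hBD, hdisj _ _ hCD, by
            rw [← hunion, ← hunion, ← hunion, hu]; simp⟩
      simpa only [fdegree, hc', hunion] using h1
    obtain ⟨g, hgG, hg⟩ := hG.exists_gt ((s + 1) ^ (2 * s + 4))
    obtain ⟨n, a, b₀, κ, b, hn, hng, hsym, hnef, -, hval⟩ :=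
      extension (by omega) c' hdiv hFN g hg.le
    have h1 := H g hgG a b₀ b hsym hnef s n (fun i => by have := hn i; omega) hng x hx
    have hzero : ∀ S : Finset (Fin s), ¬ (S.Nonempty ∧ S ≠ univ) → x.1 S = 0 := by
      intro S hS
      by_cases hS0 : S.Nonempty
      · have hSu : S = univ := by
          by_contra hSu
          exact hS ⟨hS0, hSu⟩
        rw [← hcurve.2.1 S]
        apply hcurve.2.2.1
        rw [hSu]
        simp
      · rw [not_nonempty_iff_eq_empty] at hS0
        apply hcurve.2.2.1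
        rw [hS0]
        simp
    have e1 : ∑ S, c' S * x.1 S = ∑ S, - b (∑ i ∈ S, n i) * x.1 S +
        κ * ∑ S, (∑ i ∈ S, ∑ j ∈ Sᶜ, (n i : ℝ) * n j) * x.1 S := by
      rw [mul_sum, ← sum_add_distrib]
      refine sum_congr rfl fun S _ => ?_
      by_cases hS : S.Nonempty ∧ S ≠ univ
      · rw [hval S hS.1 hS.2]; ring
      · rw [hzero S hS]; ring
    have e2 : ∑ i, c' {i} * x.2 i = ∑ i, - b (∑ i ∈ {i}, n i) * x.2 i +
        κ * ∑ i, (∑ j ∈ ({i} : Finset (Fin s))ᶜ, (n i : ℝ) * n j) * x.2 i := by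
      rw [mul_sum, ← sum_add_distrib]
      refine sum_congr rfl fun i _ => ?_
      rw [hval {i} (singleton_nonempty i) ?_]
      · simp only [sum_singleton]; ring
      · intro h
        have := congrArg card h
        rw [card_singleton, card_univ, Fintype.card_fin] at this
        omega
    have e3 := cut_degree hcurve (fun i => (n i : ℝ))
    have e4 : degree c' x.1 x.2 = degree (fun T => - b (∑ i ∈ T, n i)) x.1 x.2 := by
      unfold degree
      rw [e1, e2, ← e3]
      ring
    rw [e4]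
    exact h1
  · intro H g _ a b₀ b hsym hnef s n hn hg x hx
    have hcurve := h𝒞 s x hx
    have hsplit : ∀ S : Finset (Fin s), ∑ i ∈ S, n i + ∑ i ∈ Sᶜ, n i = g := by
      intro S
      rw [sum_add_sum_compl, hg]
    have hpos : ∀ S : Finset (Fin s), S.Nonempty → 0 < ∑ i ∈ S, n i := by
      intro S hS
      exact sum_pos (fun i _ => hn i) hS
    have hdiv : IsDivisor (fun T : Finset (Fin s) => - b (∑ i ∈ T, n i)) := by
      intro S hS hS'
      have h1 := hsplit S
      have h2 := hpos S hS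
      have h3 : 0 < ∑ i ∈ Sᶜ, n i := by
        apply hpos
        rw [nonempty_iff_ne_empty]
        intro h
        exact hS' (compl_eq_empty_iff S |>.1 h)
      have e : ∑ i ∈ Sᶜ, n i = g - ∑ i ∈ S, n i := by omega
      show - b (∑ i ∈ Sᶜ, n i) = - b (∑ i ∈ S, n i)
      rw [e, hsym _ h2 (by omega)]
    have hFN : FNef (fun T : Finset (Fin s) => - b (∑ i ∈ T, n i)) := by
      rintro A B C D ⟨hA, hB, hC, hD, hAB, hAC, hAD, hBC, hBD, hCD, hu⟩
      have hABC : Disjoint (A ∪ B) C := disjoint_union_left.2 ⟨hAC, hBC⟩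
      have hABCD : Disjoint (A ∪ B ∪ C) D :=
        disjoint_union_left.2 ⟨disjoint_union_left.2 ⟨hAD, hBD⟩, hCD⟩
      have hs : ∑ i ∈ A, n i + ∑ i ∈ B, n i + ∑ i ∈ C, n i + ∑ i ∈ D, n i = g := by
        rw [← sum_union hAB, ← sum_union hABC, ← sum_union hABCD, hu, hg]
      have h1 := hnef _ (Or.inr (Or.inr (Or.inr (Or.inr (Or.inr
        ⟨∑ i ∈ A, n i, ∑ i ∈ B, n i, ∑ i ∈ C, n i, ∑ i ∈ D, n i, hpos A hA, hpos B hB, hpos C hC,
          hpos D hD, hs, rfl⟩)))))
      unfold fdegree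
      beta_reduce
      rw [sum_union hAB, sum_union hAC, sum_union hAD]
      linarith
    have h2 := H s _ hdiv hFN s id Function.surjective_id x hx
    simpa using h2

end Pool.Agent.Results.MP_23e236_ag.UnmarkedSuffices
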